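import Mathlib

/-!
# The recursion `X n = ∑ i, α i / X (n - d i)` along two filters

The proof follows the one of the library for two delays (`BasinsByValuation`), with lists of delays
in place of pairs of exponents.
-/

set_option autoImplicit false

namespace Pool.Agent.KS6_20.BV

open Filter Topology

variable {ι : Type} [Fintype ι]

/-! ### Real numbers with a known weighted sum -/

lemma tendsto_of_sum_upper {F : Filter ℕ} {p : ι → ℕ → ℝ} {α : ι → ℝ} (hα : ∀ i, 0 < α i) {t : ℝ}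
    (h : Tendsto (fun n => ∑ i, α i * p i n) F (𝓝 ((∑ i, α i) * t)))
    (hp : ∀ i, ∀ t', t < t' → ∀ᶠ n in F, p i n < t') (j : ι) :
    Tendsto (p j) F (𝓝 t) := by
  classical
  set A := ∑ i, α i with hA
  have hjA : α j ≤ A := Finset.single_le_sum (fun i _ => (hα i).le) (Finset.mem_univ j)
  have hApos : 0 < A := lt_of_lt_of_le (hα j) hjA
  rw [tendsto_order]
  refine ⟨fun a' ha' => ?_, fun b' hb' => hp j b' hb'⟩
  have hgap : 0 < α j * (t - a') := mul_pos (hα j) (by linarith)
  have h1 : ∀ᶠ n in F, A * t - α j * (t - a') / 2 < ∑ i, α i * p i n :=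
    (tendsto_order.1 h).1 _ (by linarith)
  set ε := α j * (t - a') / (2 * A) with hε
  have hεpos : 0 < ε := by positivity
  have h2 : ∀ᶠ n in F, ∀ i, p i n < t + ε := eventually_all.2 fun i => hp i _ (by linarith)
  filter_upwards [h1, h2] with n h1 h2
  have h3 : ∑ i, α i * p i n ≤ α j * p j n + ∑ i ∈ Finset.univ.erase j, α i * (t + ε) := by
    rw [← Finset.add_sum_erase _ _ (Finset.mem_univ j)]
    have : ∑ i ∈ Finset.univ.erase j, α i * p i n ≤ ∑ i ∈ Finset.univ.erase j, α i * (t + ε) :=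
      Finset.sum_le_sum fun i _ => mul_le_mul_of_nonneg_left (h2 i).le (hα i).le
    linarith
  have h4 : ∑ i ∈ Finset.univ.erase j, α i * (t + ε) = (A - α j) * (t + ε) := by
    rw [← Finset.sum_mul, hA, ← Finset.add_sum_erase _ _ (Finset.mem_univ j)]
    ring
  rw [h4] at h3
  have h5 : A * ε = α j * (t - a') / 2 := by
    rw [hε]; field_simp
  have h6 : 0 < α j * ε := mul_pos (hα j) hεpos
  have h7 : α j * a' < α j * p j n := by nlinarith
  exact lt_of_mul_lt_mul_left h7 (hα j).le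

lemma tendsto_of_sum_lower {F : Filter ℕ} {p : ι → ℕ → ℝ} {α : ι → ℝ} (hα : ∀ i, 0 < α i) {t : ℝ}
    (h : Tendsto (fun n => ∑ i, α i * p i n) F (𝓝 ((∑ i, α i) * t)))
    (hp : ∀ i, ∀ t', t' < t → ∀ᶠ n in F, t' < p i n) (j : ι) :
    Tendsto (p j) F (𝓝 t) := by
  have h1 : Tendsto (fun n => ∑ i, α i * (- p i n)) F (𝓝 ((∑ i, α i) * (-t))) := by
    have := h.neg
    simpa [mul_neg, Finset.sum_neg_distrib] using this
  have h2 := tendsto_of_sum_upper (p := fun i n => - p i n) hα h1 (fun i t' ht' => by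
    filter_upwards [hp i (-t') (by linarith)] with n hn
    linarith) j
  simpa using h2.neg

/-! ### The recursion along two filters -/

/-- `X n = ∑ i, α i / X (n - d i)` eventually -/
structure Sys (d : ι → ℕ) (α : ι → ℝ) (F0 F1 : Filter ℕ) (X : ℕ → ℝ) : Prop where
  rec0 : ∀ᶠ n in F0, X n = ∑ i, α i / X (n - d i)
  rec1 : ∀ᶠ n in F1, X n = ∑ i, α i / X (n - d i)
  t01 : ∀ i, Tendsto (fun n => n - d i) F0 F1
  t10 : ∀ i, Tendsto (fun n => n - d i) F1 F0
  bdd : ∃ lo hi : ℝ, 0 < lo ∧ ∀ n, lo ≤ X n ∧ X n ≤ hi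
  pos : ∀ i, 0 < α i
  ne0 : F0.NeBot
  ne1 : F1.NeBot

variable {d : ι → ℕ} {α : ι → ℝ} {F0 F1 : Filter ℕ} {X : ℕ → ℝ}

lemma sum_div_le {α : ι → ℝ} (hα : ∀ i, 0 < α i) {x : ι → ℝ} {y : ℝ} (hy : 0 < y)
    (h : ∀ i, y ≤ x i) : ∑ i, α i / x i ≤ (∑ i, α i) / y := by
  rw [Finset.sum_div]
  exact Finset.sum_le_sum fun i _ => div_le_div_of_nonneg_left (hα i).le hy (h i)

lemma le_sum_div {α : ι → ℝ} (hα : ∀ i, 0 < α i) {x : ι → ℝ} {y : ℝ} (hx : ∀ i, 0 < x i)
    (h : ∀ i, x i ≤ y) : (∑ i, α i) / y ≤ ∑ i, α i / x i := by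
  rw [Finset.sum_div]
  exact Finset.sum_le_sum fun i _ => div_le_div_of_nonneg_left (hα i).le (hx i) (h i)

lemma sum_div_lt [Nonempty ι] {α : ι → ℝ} (hα : ∀ i, 0 < α i) {x : ι → ℝ} {y : ℝ} (hy : 0 < y)
    (h : ∀ i, y < x i) : ∑ i, α i / x i < (∑ i, α i) / y := by
  rw [Finset.sum_div]
  exact Finset.sum_lt_sum_of_nonempty Finset.univ_nonempty
    fun i _ => div_lt_div_of_pos_left (hα i) hy (h i)

lemma lt_sum_div [Nonempty ι] {α : ι → ℝ} (hα : ∀ i, 0 < α i) {x : ι → ℝ} {y : ℝ}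
    (hx : ∀ i, 0 < x i) (h : ∀ i, x i < y) : (∑ i, α i) / y < ∑ i, α i / x i := by
  rw [Finset.sum_div]
  exact Finset.sum_lt_sum_of_nonempty Finset.univ_nonempty
    fun i _ => div_lt_div_of_pos_left (hα i) (hx i) (h i)

lemma Sys.extremes [Nonempty ι] (H : Sys d α F0 F1 X) :
    ∃ S I : ℝ, 0 < S ∧ 0 < I ∧ S * I = ∑ i, α i ∧
    (∀ y, S < y → ∀ᶠ n in F0, X n < y) ∧ (∀ y, y < S → ∃ᶠ n in F0, y < X n) ∧
    (∀ y, y < I → ∀ᶠ n in F1, y < X n) := by
  obtain ⟨lo, hi, hlo, hb⟩ := H.bdd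
  have := H.ne0
  have := H.ne1
  have hu0 : IsBoundedUnder (· ≤ ·) F0 X := isBoundedUnder_of ⟨hi, fun n => (hb n).2⟩
  have hl0 : IsBoundedUnder (· ≥ ·) F0 X := isBoundedUnder_of ⟨lo, fun n => (hb n).1⟩
  have hu1 : IsBoundedUnder (· ≤ ·) F1 X := isBoundedUnder_of ⟨hi, fun n => (hb n).2⟩
  have hl1 : IsBoundedUnder (· ≥ ·) F1 X := isBoundedUnder_of ⟨lo, fun n => (hb n).1⟩
  set S := limsup X F0 with hS
  set I := liminf X F1 with hI
  set A := ∑ i, α i with hA
  have hApos : 0 < A := Finset.sum_pos (fun i _ => H.pos i) Finset.univ_nonempty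
  have hS1 : ∀ y, S < y → ∀ᶠ n in F0, X n < y := fun y hy =>
    eventually_lt_of_limsup_lt hy hu0
  have hS2 : ∀ y, y < S → ∃ᶠ n in F0, y < X n := fun y hy =>
    frequently_lt_of_lt_limsup hl0.isCoboundedUnder_le hy
  have hI1 : ∀ y, y < I → ∀ᶠ n in F1, y < X n := fun y hy =>
    eventually_lt_of_lt_liminf hy hl1
  have hSlo : lo ≤ S := by
    by_contra hc
    push Not at hc
    obtain ⟨n, hn⟩ := (hS1 lo hc).exists
    linarith [(hb n).1]
  have hIlo : lo ≤ I :=
    le_liminf_of_le hu1.isCoboundedUnder_ge (Eventually.of_forall fun n => (hb n).1)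
  have hSpos : 0 < S := by linarith
  have hIpos : 0 < I := by linarith
  refine ⟨S, I, hSpos, hIpos, ?_, hS1, hS2, hI1⟩
  apply le_antisymm
  · by_contra hc
    push Not at hc
    have h1 : A / S < I := by rw [div_lt_iff₀ hSpos]; linarith
    obtain ⟨y, hy1, hy2⟩ := exists_between h1
    have hy0 : 0 < y := lt_trans (by positivity) hy1
    have h2 : S ≤ A / y := by
      refine limsup_le_of_le hl0.isCoboundedUnder_le ?_
      have h3 : ∀ᶠ n in F0, ∀ i, y < X (n - d i) :=
        eventually_all.2 fun i => (H.t01 i).eventually (hI1 y hy2)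
      filter_upwards [H.rec0, h3] with n h1 h2
      rw [h1]
      exact sum_div_le H.pos hy0 fun i => (h2 i).le
    rw [div_lt_iff₀ hSpos] at hy1
    rw [le_div_iff₀ hy0] at h2
    linarith
  · by_contra hc
    push Not at hc
    have h1 : S < A / I := by rw [lt_div_iff₀ hIpos]; linarith
    obtain ⟨y, hy1, hy2⟩ := exists_between h1
    have hy0 : 0 < y := lt_trans hSpos hy1
    have h2 : A / y ≤ I := by
      refine le_liminf_of_le hu1.isCoboundedUnder_ge ?_
      have h3 : ∀ᶠ n in F1, ∀ i, X (n - d i) < y :=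
        eventually_all.2 fun i => (H.t10 i).eventually (hS1 y hy1)
      filter_upwards [H.rec1, h3] with n h1 h2
      rw [h1]
      exact le_sum_div H.pos (fun i => lt_of_lt_of_le hlo (hb _).1) fun i => (h2 i).le
    rw [lt_div_iff₀ hIpos] at hy2
    rw [div_le_iff₀ hy0] at h2
    linarith

/-- an ultrafilter along which `X` tends to its limsup -/
lemma exists_ultra {F : Filter ℕ} {S : ℝ} (h1 : ∀ y, S < y → ∀ᶠ n in F, X n < y)
    (h2 : ∀ y, y < S → ∃ᶠ n in F, y < X n) :
    ∃ U : Ultrafilter ℕ, (U : Filter ℕ) ≤ F ∧ Tendsto X U (𝓝 S) := by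
  rw [← mapClusterPt_iff_ultrafilter, mapClusterPt_iff_frequently]
  intro s hs
  obtain ⟨ε, hε, hs'⟩ := Metric.mem_nhds_iff.1 hs
  have := (h2 (S - ε) (by linarith)).and_eventually (h1 (S + ε) (by linarith))
  refine this.mono fun n hn => hs' ?_
  rw [Metric.mem_ball, Real.dist_eq, abs_lt]
  constructor <;> linarith [hn.1, hn.2]

/-- the two properties of the past -/
def P (X : ℕ → ℝ) (U F : Filter ℕ) (S : ℝ) (c : ℕ) : Prop :=
  Tendsto (fun n => n - c) U F ∧ Tendsto (fun n => X (n - c)) U (𝓝 S)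

lemma step0 (H : Sys d α F0 F1 X) {S I : ℝ} (hI : 0 < I) (hSI : S * I = ∑ i, α i)
    (hI1 : ∀ y, y < I → ∀ᶠ n in F1, y < X n) {U : Filter ℕ} {c : ℕ} (h : P X U F0 S c) (j : ι) :
    P X U F1 I (c + d j) := by
  obtain ⟨lo, hi, hlo, hb⟩ := H.bdd
  obtain ⟨hc, hX⟩ := h
  have ta : ∀ i, Tendsto (fun n => n - (c + d i)) U F1 := fun i => by
    simpa [Function.comp_def, Nat.sub_sub] using (H.t01 i).comp hc
  have hrec : ∀ᶠ n in U, X (n - c) = ∑ i, α i * (1 / X (n - (c + d i))) := by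
    simpa [Nat.sub_sub, div_eq_mul_inv] using hc.eventually H.rec0
  have hsum : Tendsto (fun n => ∑ i, α i * (1 / X (n - (c + d i)))) U
      (𝓝 ((∑ i, α i) * (1 / I))) := by
    have : (∑ i, α i) * (1 / I) = S := by rw [← hSI]; field_simp
    rw [this]
    exact hX.congr' hrec
  have up : ∀ i, ∀ t', 1 / I < t' → ∀ᶠ n in U, 1 / X (n - (c + d i)) < t' := by
    intro e t' ht'
    have ht0 : 0 < t' := lt_trans (by positivity) ht'
    have h1 : 1 / t' < I := by
      rw [div_lt_iff₀ hI] at ht'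
      rw [div_lt_iff₀ ht0]
      linarith
    filter_upwards [(ta e).eventually (hI1 _ h1)] with n hn
    have hp : 0 < X (n - (c + d e)) := lt_of_lt_of_le hlo (hb _).1
    rw [div_lt_iff₀ ht0] at hn
    rw [div_lt_iff₀ hp]
    linarith
  refine ⟨ta j, ?_⟩
  have := (tendsto_of_sum_upper (p := fun i n => 1 / X (n - (c + d i))) H.pos hsum up j).inv₀
    (by positivity)
  simpa using this

lemma step1 (H : Sys d α F0 F1 X) {S I : ℝ} (hS : 0 < S) (hSI : S * I = ∑ i, α i)
    (hS1 : ∀ y, S < y → ∀ᶠ n in F0, X n < y) {U : Filter ℕ} {c : ℕ} (h : P X U F1 I c) (j : ι) :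
    P X U F0 S (c + d j) := by
  obtain ⟨lo, hi, hlo, hb⟩ := H.bdd
  obtain ⟨hc, hX⟩ := h
  have ta : ∀ i, Tendsto (fun n => n - (c + d i)) U F0 := fun i => by
    simpa [Function.comp_def, Nat.sub_sub] using (H.t10 i).comp hc
  have hrec : ∀ᶠ n in U, X (n - c) = ∑ i, α i * (1 / X (n - (c + d i))) := by
    simpa [Nat.sub_sub, div_eq_mul_inv] using hc.eventually H.rec1
  have hsum : Tendsto (fun n => ∑ i, α i * (1 / X (n - (c + d i)))) U
      (𝓝 ((∑ i, α i) * (1 / S))) := by
    have : (∑ i, α i) * (1 / S) = I := by rw [← hSI]; field_simp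
    rw [this]
    exact hX.congr' hrec
  have up : ∀ i, ∀ t', t' < 1 / S → ∀ᶠ n in U, t' < 1 / X (n - (c + d i)) := by
    intro e t' ht'
    rcases le_or_gt t' 0 with ht0 | ht0
    · refine Eventually.of_forall fun n => lt_of_le_of_lt ht0 ?_
      have hp : 0 < X (n - (c + d e)) := lt_of_lt_of_le hlo (hb _).1
      positivity
    have h1 : S < 1 / t' := by
      rw [lt_div_iff₀ hS] at ht'
      rw [lt_div_iff₀ ht0]
      linarith
    filter_upwards [(ta e).eventually (hS1 _ h1)] with n hn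
    have hp : 0 < X (n - (c + d e)) := lt_of_lt_of_le hlo (hb _).1
    rw [lt_div_iff₀ ht0] at hn
    rw [lt_div_iff₀ hp]
    linarith
  refine ⟨ta j, ?_⟩
  have := (tendsto_of_sum_lower (p := fun i n => 1 / X (n - (c + d i))) H.pos hsum up j).inv₀
    (by positivity)
  simpa using this

/-- the past of a point where `X` is close to its limsup -/
lemma Sys.past [Nonempty ι] (H : Sys d α F0 F1 X) :
    ∃ S I : ℝ, 0 < S ∧ 0 < I ∧ S * I = ∑ i, α i ∧
    (∀ y, S < y → ∀ᶠ n in F0, X n < y) ∧ (∀ y, y < I → ∀ᶠ n in F1, y < X n) ∧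
    ∃ U : Ultrafilter ℕ, (U : Filter ℕ) ≤ F0 ∧ ∀ L : List ι,
      (Even L.length → P X U F0 S (L.map d).sum) ∧
      (¬ Even L.length → P X U F1 I (L.map d).sum) := by
  obtain ⟨S, I, hS, hI, hSI, hS1, hS2, hI1⟩ := H.extremes
  obtain ⟨U, hU, hX⟩ := exists_ultra hS1 hS2
  refine ⟨S, I, hS, hI, hSI, hS1, hI1, U, hU, ?_⟩
  intro L
  induction L with
  | nil =>
    refine ⟨fun _ => ⟨by simp only [List.map_nil, List.sum_nil, Nat.sub_zero]; exact hU,
      by simpa using hX⟩, fun h => absurd (by simp) h⟩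
  | cons i L ih =>
    have e : ((i :: L).map d).sum = (L.map d).sum + d i := by
      rw [List.map_cons, List.sum_cons, add_comm]
    rw [e, List.length_cons, Nat.even_add_one, not_not]
    exact ⟨fun h => step1 H hS hSI hS1 (ih.2 h) i, fun h => step0 H hI hSI hI1 (ih.1 h) i⟩

/-! ### The two cases -/

/-- a positive bounded solution -/
structure Good (d : ι → ℕ) (α : ι → ℝ) (X : ℕ → ℝ) : Prop where
  hd : ∀ i, 1 ≤ d i
  pos : ∀ i, 0 < α i
  bdd : ∃ lo hi : ℝ, 0 < lo ∧ ∀ n, lo ≤ X n ∧ X n ≤ hi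
  recur : ∀ n, (∀ i, d i ≤ n) → X n = ∑ i, α i / X (n - d i)

lemma Good.eventually (G : Good d α X) : ∀ᶠ n in atTop, X n = ∑ i, α i / X (n - d i) := by
  have : ∀ᶠ n in atTop, ∀ i, d i ≤ n := eventually_all.2 fun i => eventually_ge_atTop (d i)
  filter_upwards [this] with n h
  exact G.recur n h

lemma Good.core_one [Nonempty ι] (G : Good d α X) {L L' : List ι}
    (e : (L.map d).sum = (L'.map d).sum) (hL : Even L.length) (hL' : ¬ Even L'.length) :
    Tendsto X atTop (𝓝 (√(∑ i, α i))) := by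
  have H : Sys d α atTop atTop X :=
    { rec0 := G.eventually
      rec1 := G.eventually
      t01 := fun i => tendsto_sub_atTop_nat (d i)
      t10 := fun i => tendsto_sub_atTop_nat (d i)
      bdd := G.bdd
      pos := G.pos
      ne0 := inferInstance
      ne1 := inferInstance }
  obtain ⟨S, I, hS, hI, hSI, hS1, hI1, U, hU, hP⟩ := H.past
  have h1 := ((hP L).1 hL).2
  have h2 := ((hP L').2 hL').2
  rw [e] at h1
  have hEq : S = I := tendsto_nhds_unique h1 h2
  subst hEq
  have hS2 : S = √(∑ i, α i) := by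
    rw [← hSI, Real.sqrt_mul_self hS.le]
  rw [← hS2]
  exact tendsto_order.2 ⟨hI1, hS1⟩

lemma Good.invariant [Nonempty ι] (G : Good d α X) (hposX : ∀ n, 0 < X n)
    (od : ∀ i, ¬ Even (d i)) {B : ℕ} (hB : ∀ i, d i ≤ B) {p q : ℝ} (hp : 0 < p) (hq : 0 < q)
    {N : ℕ} (hN : ∀ m, N ≤ m → m < N + B →
      (Even m → p < X m ∧ X m < q) ∧
      (¬ Even m → (∑ i, α i) / q < X m ∧ X m < (∑ i, α i) / p)) :
    ∀ m, N ≤ m →
      (Even m → p < X m ∧ X m < q) ∧
      (¬ Even m → (∑ i, α i) / q < X m ∧ X m < (∑ i, α i) / p) := by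
  have hApos : 0 < ∑ i, α i := Finset.sum_pos (fun i _ => G.pos i) Finset.univ_nonempty
  intro m
  induction m using Nat.strong_induction_on with
  | _ m ih =>
    intro hm
    by_cases hmn : m < N + B
    · exact hN m hm hmn
    · push Not at hmn
      have ga : ∀ i, (Even (m - d i) → p < X (m - d i) ∧ X (m - d i) < q) ∧
          (¬ Even (m - d i) → (∑ i, α i) / q < X (m - d i) ∧ X (m - d i) < (∑ i, α i) / p) := by
        intro i
        have h1 := G.hd i
        have h2 := hB i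
        exact ih (m - d i) (by omega) (by omega)
      have hr := G.recur m (fun i => by have := hB i; omega)
      have ea : ∀ i, (Even (m - d i) ↔ ¬ Even m) := by
        intro i
        have h2 := hB i
        have h3 := od i
        rw [Nat.even_sub (by omega)]; tauto
      by_cases hev : Even m
      · refine ⟨fun _ => ?_, fun h => absurd hev h⟩
        have hx : ∀ i, (∑ i, α i) / q < X (m - d i) ∧ X (m - d i) < (∑ i, α i) / p := by
          intro i
          refine (ga i).2 ?_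
          rw [ea i]
          exact fun h => h hev
        rw [hr]
        constructor
        · have := lt_sum_div G.pos (fun i => hposX (m - d i)) (fun i => (hx i).2)
          rwa [div_div_cancel₀ hApos.ne'] at this
        · have := sum_div_lt G.pos (div_pos hApos hq) (fun i => (hx i).1)
          rwa [div_div_cancel₀ hApos.ne'] at this
      · refine ⟨fun h => absurd h hev, fun _ => ?_⟩
        have hx : ∀ i, p < X (m - d i) ∧ X (m - d i) < q := by
          intro i
          refine (ga i).1 ?_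
          rw [ea i]
          exact hev
        rw [hr]
        exact ⟨lt_sum_div G.pos (fun i => hposX (m - d i)) (fun i => (hx i).2),
          sum_div_lt G.pos hp (fun i => (hx i).1)⟩

omit [Fintype ι] in
/-- every large number is a sum of delays -/
lemma exists_list (hgcd : ∀ m : ℕ, (∀ i, m ∣ d i) → m ∣ 1) :
    ∃ K, ∀ c, K ≤ c → ∃ L : List ι, (L.map d).sum = c := by
  obtain ⟨K, hK⟩ := Nat.exists_mem_closure_of_ge (Set.range d)
  refine ⟨K, fun c hc => ?_⟩
  have h1 : Nat.setGcd (Set.range d) ∣ 1 :=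
    hgcd _ fun i => Nat.setGcd_dvd_of_mem (Set.mem_range_self i)
  have h2 := hK c hc (h1.trans (one_dvd c))
  refine AddSubmonoid.closure_induction (motive := fun x _ => ∃ L : List ι, (L.map d).sum = x)
    ?_ ⟨[], by simp⟩ ?_ h2
  · rintro _ ⟨i, rfl⟩
    exact ⟨[i], by simp⟩
  · rintro x y _ _ ⟨L, hL⟩ ⟨L', hL'⟩
    exact ⟨L ++ L', by simp [hL, hL']⟩

omit [Fintype ι] in
lemma even_sum_iff (od : ∀ i, ¬ Even (d i)) (L : List ι) :
    Even (L.map d).sum ↔ Even L.length := by
  induction L with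
  | nil => simp
  | cons i L ih =>
    have h := od i
    rw [List.map_cons, List.sum_cons, List.length_cons, Nat.even_add, Nat.even_add_one, ih]
    tauto

lemma Good.core_two [Nonempty ι] (G : Good d α X) (hgcd : ∀ m : ℕ, (∀ i, m ∣ d i) → m ∣ 1)
    (od : ∀ i, ¬ Even (d i)) :
    ∃ L : ℝ, 0 < L ∧ Tendsto X (atTop ⊓ 𝓟 {n | Even n}) (𝓝 L) ∧
      Tendsto X (atTop ⊓ 𝓟 {n | ¬ Even n}) (𝓝 ((∑ i, α i) / L)) := by
  have hrec := G.eventually
  have hApos : 0 < ∑ i, α i := Finset.sum_pos (fun i _ => G.pos i) Finset.univ_nonempty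
  have t01 : ∀ e : ℕ, ¬ Even e → Tendsto (fun n => n - e) (atTop ⊓ 𝓟 {n | Even n})
      (atTop ⊓ 𝓟 {n | ¬ Even n}) := by
    intro e he
    refine tendsto_inf.2 ⟨(tendsto_sub_atTop_nat e).mono_left inf_le_left,
      tendsto_principal.2 ?_⟩
    rw [eventually_inf_principal]
    filter_upwards [eventually_ge_atTop e] with n hn hev
    change Even n at hev
    rw [Nat.even_sub hn]
    tauto
  have t10 : ∀ e : ℕ, ¬ Even e → Tendsto (fun n => n - e) (atTop ⊓ 𝓟 {n | ¬ Even n})
      (atTop ⊓ 𝓟 {n | Even n}) := by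
    intro e he
    refine tendsto_inf.2 ⟨(tendsto_sub_atTop_nat e).mono_left inf_le_left,
      tendsto_principal.2 ?_⟩
    rw [eventually_inf_principal]
    filter_upwards [eventually_ge_atTop e] with n hn hev
    change ¬ Even n at hev
    rw [Nat.even_sub hn]
    tauto
  have H : Sys d α (atTop ⊓ 𝓟 {n | Even n}) (atTop ⊓ 𝓟 {n | ¬ Even n}) X :=
    { rec0 := hrec.filter_mono inf_le_left
      rec1 := hrec.filter_mono inf_le_left
      t01 := fun i => t01 (d i) (od i)
      t10 := fun i => t10 (d i) (od i)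
      bdd := G.bdd
      pos := G.pos
      ne0 := frequently_mem_iff_neBot.1 Nat.frequently_even
      ne1 := frequently_mem_iff_neBot.1 (by simpa [Nat.not_even_iff_odd] using Nat.frequently_odd) }
  obtain ⟨S, I, hS, hI, hSI, hS1, hI1, U, hU, hP⟩ := H.past
  have hIS : I = (∑ i, α i) / S := by rw [← hSI]; field_simp
  obtain ⟨lo, hi, hlo, hbd⟩ := G.bdd
  have hposX : ∀ n, 0 < X n := fun n => lt_of_lt_of_le hlo (hbd n).1
  have := H.ne0
  obtain ⟨K, hK⟩ := exists_list hgcd
  set B := ∑ i, d i with hBdef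
  have hB : ∀ i, d i ≤ B := fun i =>
    Finset.single_le_sum (f := d) (fun i _ => Nat.zero_le _) (Finset.mem_univ i)
  have hB1 : 1 ≤ B := (G.hd (Classical.arbitrary ι)).trans (hB _)
  -- the window
  have hwin : ∀ c, K ≤ c → (Even c → Tendsto (fun n => X (n - c)) U (𝓝 S)) ∧
      (¬ Even c → Tendsto (fun n => X (n - c)) U (𝓝 I)) := by
    intro c hc
    obtain ⟨L, hL⟩ := hK c hc
    have hpar : Even c ↔ Even L.length := by rw [← hL]; exact even_sum_iff od L
    have := hP L
    rw [hL] at this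
    rw [hpar]
    exact ⟨fun h => (this.1 h).2, fun h => (this.2 h).2⟩
  have key : ∀ p q : ℝ, 0 < p → p < S → S < q → ∃ N, ∀ m, N ≤ m →
      (Even m → p < X m ∧ X m < q) ∧
      (¬ Even m → (∑ i, α i) / q < X m ∧ X m < (∑ i, α i) / p) := by
    intro p q hp hpS hSq
    have hq : 0 < q := hS.trans hSq
    have h1 : ∀ᶠ n in (U : Filter ℕ), ∀ t ∈ Finset.range B,
        (Even (K + t) → p < X (n - (K + t)) ∧ X (n - (K + t)) < q) ∧
        (¬ Even (K + t) → (∑ i, α i) / q < X (n - (K + t)) ∧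
          X (n - (K + t)) < (∑ i, α i) / p) := by
      rw [Filter.eventually_all_finset]
      intro t _
      by_cases ht : Even (K + t)
      · have := (hwin (K + t) (by omega)).1 ht
        filter_upwards [(tendsto_order.1 this).1 p hpS, (tendsto_order.1 this).2 q hSq]
          with n h1 h2
        exact ⟨fun _ => ⟨h1, h2⟩, fun h => absurd ht h⟩
      · have := (hwin (K + t) (by omega)).2 ht
        have e1 : (∑ i, α i) / q < I := by
          rw [hIS]; exact div_lt_div_of_pos_left hApos hS hSq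
        have e2 : I < (∑ i, α i) / p := by
          rw [hIS]; exact div_lt_div_of_pos_left hApos hp hpS
        filter_upwards [(tendsto_order.1 this).1 _ e1, (tendsto_order.1 this).2 _ e2]
          with n h1 h2
        exact ⟨fun h => absurd h ht, fun _ => ⟨h1, h2⟩⟩
    have h2 : ∀ᶠ n in (U : Filter ℕ), Even n ∧ K + 2 * B ≤ n := by
      refine hU ?_
      have : ∀ᶠ n in atTop ⊓ 𝓟 {n : ℕ | Even n}, Even n ∧ K + 2 * B ≤ n := by
        rw [eventually_inf_principal]
        filter_upwards [eventually_ge_atTop (K + 2 * B)] with n h1 h2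
        exact ⟨h2, h1⟩
      exact this
    obtain ⟨n, hn1, hn2, hn3⟩ := (h1.and h2).exists
    refine ⟨n - K - B + 1, G.invariant hposX od hB hp hq ?_⟩
    intro m hm1 hm2
    have ht : n - K - m ∈ Finset.range B := by
      rw [Finset.mem_range]; omega
    have h := hn1 _ ht
    have e1 : K + (n - K - m) = n - m := by omega
    have e2 : n - (n - m) = m := by omega
    rw [e1, e2] at h
    have e3 : Even (n - m) ↔ Even m := by
      rw [Nat.even_sub (by omega)]; tauto
    rw [e3] at h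
    exact h
  have hEvenLim : Tendsto X (atTop ⊓ 𝓟 {n | Even n}) (𝓝 S) := by
    refine tendsto_order.2 ⟨fun p' hp' => ?_, fun q hq => ?_⟩
    · obtain ⟨N, hN⟩ := key (max p' (S / 2)) (S + 1) (lt_max_of_lt_right (by positivity))
        (max_lt hp' (by linarith)) (by linarith)
      rw [eventually_inf_principal]
      filter_upwards [eventually_ge_atTop N] with n hn hev
      exact lt_of_le_of_lt (le_max_left _ _) ((hN n hn).1 hev).1
    · obtain ⟨N, hN⟩ := key (S / 2) q (by positivity) (by linarith) hq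
      rw [eventually_inf_principal]
      filter_upwards [eventually_ge_atTop N] with n hn hev
      exact ((hN n hn).1 hev).2
  refine ⟨S, hS, hEvenLim, ?_⟩
  have h3 : Tendsto (fun n => ∑ i, α i / X (n - d i)) (atTop ⊓ 𝓟 {n | ¬ Even n})
      (𝓝 (∑ i, α i / S)) :=
    tendsto_finsetSum _ fun i _ =>
      (tendsto_const_nhds.div (hEvenLim.comp (t10 (d i) (od i))) hS.ne')
  rw [← Finset.sum_div] at h3
  refine h3.congr' ?_
  filter_upwards [hrec.filter_mono inf_le_left] with n hn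
  exact hn.symm

/-- sequences with the same limit along each residue class -/
lemma glue {Z : ℕ → ℝ} {D : ℕ} (hD : 0 < D) {t : ℝ}
    (h : ∀ r < D, Tendsto (fun q => Z (r + D * q)) atTop (𝓝 t)) : Tendsto Z atTop (𝓝 t) := by
  rw [Metric.tendsto_nhds]
  intro ε hε
  have h1 : ∀ᶠ q in atTop, ∀ r ∈ Finset.range D, dist (Z (r + D * q)) t < ε := by
    rw [Filter.eventually_all_finset]
    intro r hr
    exact (Metric.tendsto_nhds.1 (h r (Finset.mem_range.1 hr))) ε hε
  obtain ⟨Q, hQ⟩ := eventually_atTop.1 h1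
  filter_upwards [eventually_ge_atTop (Q * D)] with n hn
  have h2 := hQ (n / D) ((Nat.le_div_iff_mul_le hD).2 hn) (n % D)
    (Finset.mem_range.2 (Nat.mod_lt n hD))
  rwa [Nat.mod_add_div] at h2

end Pool.Agent.KS6_20.BV
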