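import Pool.Agent.KS6_20.BV.Sol

/-!
# The structure of the basin
-/

set_option autoImplicit false

namespace Pool.Agent.KS6_20.BV

open Filter Topology

variable {ι : Type} [Fintype ι]

lemma w_step {w : ℕ → ℝ} {d : ℕ} (hw : ∀ n, 0 < w n ∧ w (n + d) * w n = 1) (r m : ℕ) :
    w (r + d * m) = if Even m then w r else (w r)⁻¹ := by
  induction m with
  | zero => simp
  | succ m ih =>
    have h1 := (hw (r + d * m)).2
    have e : r + d * (m + 1) = r + d * m + d := by ring
    rw [e, eq_inv_of_mul_eq_one_left h1, ih]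
    by_cases h : Even m
    · simp [h, Nat.even_add_one]
    · simp [h, Nat.even_add_one]

/-- the first `d` coordinates are `1`, the logarithms of the others are the parameters -/
noncomputable def ext (M d : ℕ) (u : Fin (M - d) → ℝ) : Fin M → ℝ :=
  fun i => if h : i.1 < d then 1 else Real.exp (u ⟨i.1 - d, by omega⟩)

lemma ext_pos {M d : ℕ} (u : Fin (M - d) → ℝ) (i : Fin M) :
    0 < ext M d u i := by
  unfold ext
  split_ifs
  · exact one_pos
  · exact Real.exp_pos _

lemma ext_cont (M d : ℕ) : Continuous (ext M d) := by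
  refine continuous_pi fun i => ?_
  by_cases h : i.1 < d
  · simp only [ext, h, dif_pos]
    exact continuous_const
  · simp only [ext, h, dif_neg, not_false_eq_true]
    exact Real.continuous_exp.comp (continuous_apply _)

/-- the multiplier that makes the first `d` coordinates equal to `1` -/
noncomputable def nrm {M d : ℕ} (hd : 0 < d) (hdM : d ≤ M)
    (v : Fin M → ℝ) : ℕ → ℝ :=
  fun n => if Even (n / d) then (v ⟨n % d, (Nat.mod_lt n hd).trans_le hdM⟩)⁻¹
    else v ⟨n % d, (Nat.mod_lt n hd).trans_le hdM⟩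

lemma nrm_spec {M d : ℕ} (hd : 0 < d) (hdM : d ≤ M)
    {v : Fin M → ℝ} (hv : ∀ i, 0 < v i) (n : ℕ) :
    0 < nrm hd hdM v n ∧ nrm hd hdM v (n + d) * nrm hd hdM v n = 1 := by
  have h1 := hv ⟨n % d, (Nat.mod_lt n hd).trans_le hdM⟩
  constructor
  · unfold nrm
    split_ifs
    · exact inv_pos.2 h1
    · exact h1
  · simp only [nrm, Nat.add_div_right n hd, Nat.add_mod_right]
    by_cases h : Even (n / d)
    · simp only [h, Nat.even_add_one, not_true_eq_false, if_true, if_false]
      exact mul_inv_cancel₀ h1.ne'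
    · simp only [h, Nat.even_add_one, not_false_eq_true, if_true, if_false]
      exact inv_mul_cancel₀ h1.ne'

variable {k : ι → ℕ} {α : ι → ℝ}

lemma nrm_cont {d : ℕ} (hd : 0 < d) (hdM : d ≤ top k + 1) (n : ℕ) :
    Continuous (fun v : basin k α => nrm hd hdM v.1 n) := by
  have h1 : Continuous (fun v : basin k α => v.1 ⟨n % d, (Nat.mod_lt n hd).trans_le hdM⟩) :=
    (continuous_apply _).comp continuous_subtype_val
  by_cases h : Even (n / d)
  · simp only [nrm, h, if_true]
    exact h1.inv₀ fun v => (v.2.1 _).ne'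
  · simp only [nrm, h, if_false]
    exact h1

lemma homeo [Nonempty ι] (hα : ∀ i, 0 < α i) (hk : ∀ i, ¬ Even (dd k i))
    {c : (Fin (top k + 1) → ℝ) → ℕ → ℝ}
    (hc : ∀ v, (∀ i, 0 < v i) → ∀ n, 0 < c v n ∧ c v (n + gg k) * c v n = ∑ i, α i)
    (hlim : ∀ v, (∀ i, 0 < v i) → Tendsto (fun n => sol k α v n - c v n) atTop (𝓝 0)) :
    Nonempty (basin k α ≃ₜ (Fin (top k + 1 - gg k) → ℝ)) := by
  have hd := gg_pos k
  have hdM := gg_le k
  set A := ∑ i, α i with hA
  have hApos : 0 < A := Finset.sum_pos (fun i _ => hα i) Finset.univ_nonempty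
  have hs : (0 : ℝ) < √A := Real.sqrt_pos.2 hApos
  have hss : √A * √A = A := Real.mul_self_sqrt hApos.le
  have hw0 : ∀ v, (∀ i, 0 < v i) → ∀ n, 0 < √A / c v n ∧
      √A / c v (n + gg k) * (√A / c v n) = 1 := by
    intro v hv n
    refine ⟨div_pos hs (hc v hv n).1, ?_⟩
    rw [div_mul_div_comm, hss, (hc v hv n).2, div_self hApos.ne']
  have hmem : ∀ v, (∀ i, 0 < v i) →
      (fun i : Fin (top k + 1) => √A / c v i * v i) ∈ basin k α := by
    intro v hv
    exact (scale_mem_iff hα hk hv (hw0 v hv) (hc v hv) (hlim v hv)).2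
      fun n => div_mul_cancel₀ _ (hc v hv n).1.ne'
  let f : basin k α → (Fin (top k + 1 - gg k) → ℝ) := fun v j =>
    Real.log (nrm hd hdM v.1 (j.1 + gg k) * v.1 ⟨j.1 + gg k, by omega⟩)
  let g : (Fin (top k + 1 - gg k) → ℝ) → basin k α := fun u =>
    ⟨fun i => √A / c (ext (top k + 1) (gg k) u) i * ext (top k + 1) (gg k) u i,
      hmem _ (ext_pos u)⟩
  have hext : ∀ v : basin k α, ext (top k + 1) (gg k) (f v) =
      fun i : Fin (top k + 1) => nrm hd hdM v.1 i * v.1 i := by
    intro v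
    funext i
    by_cases h : i.1 < gg k
    · simp only [ext, h, dif_pos, nrm]
      have e1 : i.1 / gg k = 0 := Nat.div_eq_of_lt h
      have e2 : i.1 % gg k = i.1 := Nat.mod_eq_of_lt h
      simp only [e1, e2, Even.zero, if_true]
      exact (inv_mul_cancel₀ (v.2.1 i).ne').symm
    · simp only [ext, h, dif_neg, not_false_eq_true, f]
      have e1 : i.1 - gg k + gg k = i.1 := by omega
      simp only [e1]
      exact Real.exp_log (mul_pos (nrm_spec hd hdM v.2.1 _).1 (v.2.1 i))
  refine ⟨⟨⟨f, g, ?_, ?_⟩, ?_, ?_⟩⟩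
  · intro v
    apply Subtype.ext
    funext i
    change √A / c (ext (top k + 1) (gg k) (f v)) i * ext (top k + 1) (gg k) (f v) i = v.1 i
    have hn := nrm_spec hd hdM v.2.1
    have hw : ∀ n, 0 < (nrm hd hdM v.1 n)⁻¹ ∧
        (nrm hd hdM v.1 (n + gg k))⁻¹ * (nrm hd hdM v.1 n)⁻¹ = 1 := by
      intro n
      refine ⟨inv_pos.2 (hn n).1, ?_⟩
      rw [← mul_inv, (hn n).2, inv_one]
    have hvm : (fun i : Fin (top k + 1) =>
        (nrm hd hdM v.1 i)⁻¹ * ext (top k + 1) (gg k) (f v) i) ∈ basin k α := by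
      have : (fun i : Fin (top k + 1) =>
          (nrm hd hdM v.1 i)⁻¹ * ext (top k + 1) (gg k) (f v) i) = v.1 := by
        funext i
        rw [hext v]
        exact inv_mul_cancel_left₀ (hn i).1.ne' _
      rw [this]
      exact v.2
    have h1 := (scale_mem_iff hα hk (ext_pos (f v)) hw (hc _ (ext_pos (f v)))
      (hlim _ (ext_pos (f v)))).1 hvm i
    have h2 : √A / c (ext (top k + 1) (gg k) (f v)) i = (nrm hd hdM v.1 i)⁻¹ := by
      rw [div_eq_iff (hc _ (ext_pos (f v)) i).1.ne']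
      exact h1.symm
    rw [h2, hext v]
    exact inv_mul_cancel_left₀ (hn i).1.ne' _
  · intro u
    funext j
    have hw := hw0 _ (ext_pos (M := top k + 1) (d := gg k) u)
    set w : ℕ → ℝ := fun n => √A / c (ext (top k + 1) (gg k) u) n with hwdef
    have hnrm : ∀ n, nrm hd hdM (g u).1 n = (w n)⁻¹ := by
      intro n
      have e0 : (g u).1 ⟨n % gg k, (Nat.mod_lt n hd).trans_le hdM⟩ = w (n % gg k) := by
        change √A / c (ext (top k + 1) (gg k) u) (n % gg k) *
          ext (top k + 1) (gg k) u ⟨n % gg k, (Nat.mod_lt n hd).trans_le hdM⟩ = w (n % gg k)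
        have : ext (top k + 1) (gg k) u ⟨n % gg k, (Nat.mod_lt n hd).trans_le hdM⟩ = 1 := by
          simp only [ext, Nat.mod_lt n hd, dif_pos]
        rw [this, mul_one]
      have e1 := w_step hw (n % gg k) (n / gg k)
      rw [Nat.mod_add_div] at e1
      simp only [nrm, e0]
      change w n = _ at e1
      rw [e1]
      by_cases h : Even (n / gg k)
      · simp only [h, if_true]
        rfl
      · simp only [h, if_false, inv_inv]
        rfl
    change Real.log (nrm hd hdM (g u).1 (j.1 + gg k) * (g u).1 ⟨j.1 + gg k, by omega⟩) = u j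
    rw [hnrm]
    change Real.log ((w (j.1 + gg k))⁻¹ * (w (j.1 + gg k) *
      ext (top k + 1) (gg k) u ⟨j.1 + gg k, by omega⟩)) = u j
    rw [inv_mul_cancel_left₀ (hw (j.1 + gg k)).1.ne']
    have : ¬ (j.1 + gg k < gg k) := by omega
    simp only [ext, this, dif_neg, not_false_eq_true, Real.log_exp]
    congr 1
    apply Fin.ext
    simp
  · refine continuous_pi fun j => ?_
    refine Continuous.log ?_ ?_
    · exact (nrm_cont hd hdM _).mul ((continuous_apply _).comp continuous_subtype_val)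
    · intro v
      exact (mul_pos (nrm_spec hd hdM v.2.1 _).1 (v.2.1 _)).ne'
  · refine Continuous.subtype_mk ?_ _
    refine continuous_pi fun i => ?_
    refine Continuous.mul ?_ ((continuous_apply i).comp (ext_cont (top k + 1) (gg k)))
    refine continuous_const.div ?_ fun u => (hc _ (ext_pos u) i).1.ne'
    rw [continuous_iff_continuousAt]
    intro u
    exact ContinuousAt.comp (f := ext (top k + 1) (gg k)) (g := fun v => c v i)
      (limit_cont hα hk (ext_pos u) hc hlim i) (ext_cont (top k + 1) (gg k)).continuousAt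

/-- the scaling into the basin -/
lemma unique_scaling [Nonempty ι] (hα : ∀ i, 0 < α i) (hk : ∀ i, ¬ Even (dd k i))
    {c : (Fin (top k + 1) → ℝ) → ℕ → ℝ}
    (hc : ∀ v, (∀ i, 0 < v i) → ∀ n, 0 < c v n ∧ c v (n + gg k) * c v n = ∑ i, α i)
    (hlim : ∀ v, (∀ i, 0 < v i) → Tendsto (fun n => sol k α v n - c v n) atTop (𝓝 0))
    {v : Fin (top k + 1) → ℝ} (hv : ∀ i, 0 < v i) :
    ∃! w : ℕ → ℝ, (∀ n, 0 < w n ∧ w (n + gg k) * w n = 1) ∧
          (fun i : Fin (top k + 1) => w i * v i) ∈ basin k α := by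
  have hApos : 0 < ∑ i, α i := Finset.sum_pos (fun i _ => hα i) Finset.univ_nonempty
  have hs : (0 : ℝ) < √(∑ i, α i) := Real.sqrt_pos.2 hApos
  have hss : √(∑ i, α i) * √(∑ i, α i) = ∑ i, α i := Real.mul_self_sqrt hApos.le
  have hw0 : ∀ n, 0 < √(∑ i, α i) / c v n ∧
      √(∑ i, α i) / c v (n + gg k) * (√(∑ i, α i) / c v n) = 1 := by
    intro n
    refine ⟨div_pos hs (hc v hv n).1, ?_⟩
    rw [div_mul_div_comm, hss, (hc v hv n).2, div_self hApos.ne']
  refine ⟨fun n => √(∑ i, α i) / c v n, ⟨hw0, ?_⟩, ?_⟩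
  · exact (scale_mem_iff hα hk hv hw0 (hc v hv) (hlim v hv)).2
      fun n => div_mul_cancel₀ _ (hc v hv n).1.ne'
  · rintro w ⟨hw1, hw2⟩
    funext n
    have := (scale_mem_iff hα hk hv hw1 (hc v hv) (hlim v hv)).1 hw2 n
    rw [eq_div_iff (hc v hv n).1.ne']
    exact this

end Pool.Agent.KS6_20.BV
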