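import Pool.Agent.KS6_20.BV.Homeo

/-!
# Exponential convergence
-/

set_option autoImplicit false

namespace Pool.Agent.KS6_20.BV

open Filter Topology

variable {ι : Type} [Fintype ι]

/-- a sequence on `ℕ` with a sign, each term a mean of earlier terms of the other sign -/
structure MS (d : ι → ℕ) (V : Bool → ℕ → Prop) (z : Bool → ℕ → ℝ) (κ : ℝ) (N : ℕ) : Prop where
  pos : ∀ ε n, 0 < z ε n
  back : ∀ n ε, N ≤ n → V ε n → ∀ i, V (!ε) (n - d i)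
  low : ∀ n ε, N ≤ n → ∀ lo, 0 < lo → (∀ i, lo ≤ z (!ε) (n - d i)) → lo ≤ z ε n
  upp : ∀ n ε, N ≤ n → ∀ hi, 0 < hi → (∀ i, z (!ε) (n - d i) ≤ hi) → z ε n ≤ hi
  imp : ∀ n ε, N ≤ n → ∀ lo η, 0 < lo → 0 ≤ η → η ≤ lo →
    (∀ i, lo ≤ z (!ε) (n - d i)) → ∀ j, lo + η ≤ z (!ε) (n - d j) → lo + κ * η ≤ z ε n

/-- the sign at the end of a path -/
def fl (ε : Bool) : List ι → Bool
  | [] => ε
  | _ :: L => !(fl ε L)

omit [Fintype ι] in
lemma fl_eq (ε : Bool) (L : List ι) : fl ε L = if Even L.length then ε else !ε := by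
  induction L with
  | nil => simp [fl]
  | cons i L ih =>
    rw [fl, ih, List.length_cons]
    by_cases h : Even L.length
    · simp [h, Nat.even_add_one]
    · simp [h, Nat.even_add_one]

variable {d : ι → ℕ} {V : Bool → ℕ → Prop} {z : Bool → ℕ → ℝ} {κ : ℝ} {N : ℕ}

omit [Fintype ι] in
lemma MS.path (H : MS d V z κ N) (hκ0 : 0 < κ) (hκ1 : κ ≤ 1) {B : ℕ} (hB : ∀ i, d i ≤ B)
    {M0 : ℕ} {lo η : ℝ} (hM0 : N ≤ M0) (hlo : 0 < lo) (hη0 : 0 ≤ η) (hη : η ≤ lo)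
    (hlow : ∀ m ε, M0 ≤ m → V ε m → lo ≤ z ε m) {n : ℕ} {ε : Bool} (hn : M0 + B ≤ n)
    (hz : lo + η ≤ z ε n) (L : List ι) (hV : V (fl ε L) (n + (L.map d).sum)) :
    lo + κ ^ L.length * η ≤ z (fl ε L) (n + (L.map d).sum) := by
  induction L with
  | nil => simpa [fl] using hz
  | cons i L ih =>
    have e1 : n + ((i :: L).map d).sum - d i = n + (L.map d).sum := by
      rw [List.map_cons, List.sum_cons]; omega
    have hge : M0 + B ≤ n + ((i :: L).map d).sum := by omega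
    have hb := H.back _ _ (by omega) hV
    have hb1 := hb i
    rw [e1] at hb1
    simp only [fl, Bool.not_not] at hb1
    have h1 := ih hb1
    have hp : 0 < κ ^ L.length := pow_pos hκ0 _
    have hp1 : κ ^ L.length ≤ 1 := pow_le_one₀ hκ0.le hκ1
    have h2 := H.imp (n + ((i :: L).map d).sum) (fl ε (i :: L)) (by omega) lo
      (κ ^ L.length * η) hlo (by positivity) (by nlinarith)
      (fun j => hlow _ _ (by have := hB j; omega) (hb j)) i (by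
        rw [e1]; simpa only [fl, Bool.not_not] using h1)
    rw [List.length_cons, pow_succ]
    calc lo + κ ^ L.length * κ * η = lo + κ * (κ ^ L.length * η) := by ring
      _ ≤ _ := h2

omit [Fintype ι] in
lemma MS.keep_low (H : MS d V z κ N) {B : ℕ} (hB : ∀ i, d i ≤ B) (hd : ∀ i, 1 ≤ d i)
    {M1 : ℕ} (hM1 : N ≤ M1) {lo : ℝ} (hlo : 0 < lo)
    (h : ∀ m ε, M1 ≤ m → m < M1 + B → V ε m → lo ≤ z ε m) :
    ∀ m ε, M1 ≤ m → V ε m → lo ≤ z ε m := by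
  intro m
  induction m using Nat.strong_induction_on with
  | _ m ih =>
    intro ε hm hV
    by_cases hmb : m < M1 + B
    · exact h m ε hm hmb hV
    · refine H.low m ε (by omega) lo hlo fun i => ?_
      have h1 := hB i
      have h2 := hd i
      exact ih (m - d i) (by omega) _ (by omega) (H.back m ε (by omega) hV i)

omit [Fintype ι] in
lemma MS.keep_upp (H : MS d V z κ N) {B : ℕ} (hB : ∀ i, d i ≤ B) (hd : ∀ i, 1 ≤ d i)
    {M1 : ℕ} (hM1 : N ≤ M1) {hi : ℝ} (hhi : 0 < hi)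
    (h : ∀ m ε, M1 ≤ m → m < M1 + B → V ε m → z ε m ≤ hi) :
    ∀ m ε, M1 ≤ m → V ε m → z ε m ≤ hi := by
  intro m
  induction m using Nat.strong_induction_on with
  | _ m ih =>
    intro ε hm hV
    by_cases hmb : m < M1 + B
    · exact h m ε hm hmb hV
    · refine H.upp m ε (by omega) hi hhi fun i => ?_
      have h1 := hB i
      have h2 := hd i
      exact ih (m - d i) (by omega) _ (by omega) (H.back m ε (by omega) hV i)

/-- any two places are joined by a path -/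
def Conn (d : ι → ℕ) (V : Bool → ℕ → Prop) (K : ℕ) : Prop :=
  ∀ n ε n' ε', V ε n → V ε' n' → n + K ≤ n' → ∃ L : List ι, n + (L.map d).sum = n' ∧ fl ε L = ε'

omit [Fintype ι] in
lemma length_le (hd : ∀ i, 1 ≤ d i) (L : List ι) : L.length ≤ (L.map d).sum := by
  induction L with
  | nil => simp
  | cons i L ih =>
    rw [List.length_cons, List.map_cons, List.sum_cons]
    have := hd i
    omega

omit [Fintype ι] in
lemma MS.step (H : MS d V z κ N) (hκ0 : 0 < κ) (hκ1 : κ ≤ 1) {B K : ℕ} (hB : ∀ i, d i ≤ B)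
    (hd : ∀ i, 1 ≤ d i) (hK : Conn d V K) {M0 : ℕ} (hM0 : N ≤ M0) {lo hi : ℝ} (hlo : 0 < lo)
    (hlh : lo ≤ hi) (h2 : hi ≤ 2 * lo)
    (hb : ∀ m ε, M0 ≤ m → V ε m → lo ≤ z ε m ∧ z ε m ≤ hi) :
    ∃ lo' hi' : ℝ, lo ≤ lo' ∧ lo' ≤ hi' ∧ hi' ≤ hi ∧
      hi' - lo' ≤ (1 - κ ^ (2 * B + K) / 2) * (hi - lo) ∧
      ∀ m ε, M0 + (2 * B + K) ≤ m → V ε m → lo' ≤ z ε m ∧ z ε m ≤ hi' := by
  set δ := κ ^ (2 * B + K) with hδ
  have hδ0 : 0 < δ := pow_pos hκ0 _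
  have hδ1 : δ ≤ 1 := pow_le_one₀ hκ0.le hκ1
  by_cases hA : ∃ n ε, M0 + B ≤ n ∧ n < M0 + 2 * B ∧ V ε n ∧ (lo + hi) / 2 ≤ z ε n
  · obtain ⟨n, ε, hn1, hn2, hVn, hz⟩ := hA
    refine ⟨lo + δ * ((hi - lo) / 2), hi, by nlinarith, by nlinarith, le_rfl, by nlinarith, ?_⟩
    intro m ε' hm hVm
    refine ⟨?_, (hb m ε' (by omega) hVm).2⟩
    refine H.keep_low hB hd (M1 := M0 + (2 * B + K)) (by omega) (by nlinarith) ?_ m ε' hm hVm
    intro m ε' hm1 hm2 hV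
    obtain ⟨L, hL1, hL2⟩ := hK n ε m ε' hVn hV (by omega)
    have hlen : L.length ≤ 2 * B + K := by
      have := length_le hd L
      omega
    have h3 := H.path hκ0 hκ1 hB hM0 hlo (η := (hi - lo) / 2) (ε := ε) (by linarith) (by linarith)
      (fun m ε h1 h2 => (hb m ε h1 h2).1) hn1 (by linarith) L (by rw [hL1, hL2]; exact hV)
    rw [hL1, hL2] at h3
    have h4 : δ ≤ κ ^ L.length := pow_le_pow_of_le_one hκ0.le hκ1 hlen
    have h5 : δ * ((hi - lo) / 2) ≤ κ ^ L.length * ((hi - lo) / 2) :=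
      mul_le_mul_of_nonneg_right h4 (by linarith)
    linarith
  · push Not at hA
    refine ⟨lo, (lo + hi) / 2, le_rfl, by linarith, by linarith, by nlinarith, ?_⟩
    intro m ε' hm hVm
    refine ⟨(hb m ε' (by omega) hVm).1, ?_⟩
    refine H.keep_upp hB hd (M1 := M0 + B) (by omega) (by linarith) ?_ m ε' (by omega) hVm
    intro m ε' hm1 hm2 hV
    exact (hA m ε' hm1 (by omega) hV).le

omit [Fintype ι] in
lemma MS.iter (H : MS d V z κ N) (hκ0 : 0 < κ) (hκ1 : κ ≤ 1) {B K : ℕ} (hB : ∀ i, d i ≤ B)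
    (hd : ∀ i, 1 ≤ d i) (hK : Conn d V K) {M0 : ℕ} (hM0 : N ≤ M0) {lo hi : ℝ} (hlo : 0 < lo)
    (hlh : lo ≤ hi) (h2 : hi ≤ 2 * lo)
    (hb : ∀ m ε, M0 ≤ m → V ε m → lo ≤ z ε m ∧ z ε m ≤ hi) (j : ℕ) :
    ∃ lo' hi' : ℝ, lo ≤ lo' ∧ lo' ≤ hi' ∧ hi' ≤ hi ∧
      hi' - lo' ≤ (1 - κ ^ (2 * B + K) / 2) ^ j * (hi - lo) ∧
      ∀ m ε, M0 + (2 * B + K) * j ≤ m → V ε m → lo' ≤ z ε m ∧ z ε m ≤ hi' := by
  induction j with
  | zero => exact ⟨lo, hi, le_rfl, hlh, le_rfl, by simp, fun m ε h1 h2 => hb m ε (by omega) h2⟩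
  | succ j ih =>
    obtain ⟨lo1, hi1, a1, a2, a3, a4, a5⟩ := ih
    obtain ⟨lo2, hi2, b1, b2, b3, b4, b5⟩ := H.step hκ0 hκ1 hB hd hK
      (M0 := M0 + (2 * B + K) * j) (by omega) (lo := lo1) (hi := hi1)
      (by linarith) a2 (by linarith) a5
    refine ⟨lo2, hi2, by linarith, b2, by linarith, ?_, ?_⟩
    · have hθ : 0 ≤ 1 - κ ^ (2 * B + K) / 2 := by
        have : κ ^ (2 * B + K) ≤ 1 := pow_le_one₀ hκ0.le hκ1
        linarith
      calc hi2 - lo2 ≤ (1 - κ ^ (2 * B + K) / 2) * (hi1 - lo1) := b4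
        _ ≤ (1 - κ ^ (2 * B + K) / 2) * ((1 - κ ^ (2 * B + K) / 2) ^ j * (hi - lo)) :=
          mul_le_mul_of_nonneg_left a4 hθ
        _ = _ := by ring
    · intro m ε hm hV
      refine b5 m ε ?_ hV
      have : (2 * B + K) * (j + 1) = (2 * B + K) * j + (2 * B + K) := by ring
      omega

lemma exists_root {θ : ℝ} (h0 : 0 < θ) (h1 : θ < 1) {g : ℕ} (hg : 0 < g) :
    ∃ ρ : ℝ, 0 < ρ ∧ ρ < 1 ∧ θ ≤ ρ ^ g := by
  have hg' : (1 : ℝ) ≤ g := by exact_mod_cast hg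
  have e : (1 - θ) / g ≤ 1 - θ := div_le_self (by linarith) hg'
  have e0 : 0 < (1 - θ) / g := div_pos (by linarith) (by linarith)
  refine ⟨1 - (1 - θ) / g, by linarith, by linarith, ?_⟩
  have := one_add_mul_le_pow (a := -((1 - θ) / g)) (by linarith) g
  have e2 : (1 : ℝ) + g * (-((1 - θ) / g)) = θ := by
    field_simp
    ring
  rw [e2] at this
  simpa [sub_eq_add_neg] using this

omit [Fintype ι] in
lemma MS.rate {B K : ℕ} {ρ : ℝ} (hκ0 : 0 < κ) (hκ1 : κ ≤ 1) (hB : ∀ i, d i ≤ B)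
    (hB1 : 1 ≤ B) (hd : ∀ i, 1 ≤ d i) (hρ0 : 0 < ρ) (hρ1 : ρ < 1)
    (hρ : 1 - κ ^ (2 * B + K) / 2 ≤ ρ ^ (2 * B + K))
    (H : MS d V z κ N) (hK : Conn d V K) {t : ℝ} (ht : 0 < t) {F : Filter ℕ} (hF : F ≤ atTop)
    [F.NeBot] (hVF : ∀ᶠ n in F, V true n) (hzF : Tendsto (z true) F (𝓝 t))
    (hz : ∀ b, t / 4 < b → ∀ᶠ n in atTop, ∀ ε, V ε n → t - b < z ε n ∧ z ε n < t + b) :
    ∃ C, ∀ᶠ n in atTop, ∀ ε, V ε n → |z ε n - t| ≤ C * ρ ^ n := by
  have h0 := hz (t / 3) (by linarith)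
  obtain ⟨M1, hM1⟩ := eventually_atTop.1 h0
  set M0 := max N M1 with hM0
  set T := 2 * B + K with hT
  set θ := 1 - κ ^ T / 2 with hθ
  have hκT : κ ^ T ≤ 1 := pow_le_one₀ hκ0.le hκ1
  have hκT0 : 0 < κ ^ T := pow_pos hκ0 _
  have hθ0 : 0 < θ := by linarith
  have hbd : ∀ m ε, M0 ≤ m → V ε m → t - t / 3 ≤ z ε m ∧ z ε m ≤ t + t / 3 := by
    intro m ε hm hV
    have := hM1 m ((le_max_right _ _).trans hm) ε hV
    exact ⟨this.1.le, this.2.le⟩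
  have hit := H.iter hκ0 hκ1 hB hd hK (M0 := M0) (le_max_left _ _) (lo := t - t / 3)
    (hi := t + t / 3) (by linarith) (by linarith) (by linarith) hbd
  have key : ∀ j m ε, M0 + T * j ≤ m → V ε m → |z ε m - t| ≤ θ ^ j * (2 * t / 3) := by
    intro j m ε hm hV
    obtain ⟨lo, hi, -, -, -, h4, h5⟩ := hit j
    have hmz := h5 m ε hm hV
    have ht1 : lo ≤ t ∧ t ≤ hi := by
      have hev : ∀ᶠ n in F, lo ≤ z true n ∧ z true n ≤ hi := by
        filter_upwards [hVF, hF (eventually_ge_atTop (M0 + T * j))] with n h1 h2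
        exact h5 n true h2 h1
      exact ⟨ge_of_tendsto hzF (hev.mono fun n h => h.1), le_of_tendsto hzF (hev.mono fun n h => h.2)⟩
    have e : θ ^ j * (t + t / 3 - (t - t / 3)) = θ ^ j * (2 * t / 3) := by ring
    rw [e] at h4
    rw [abs_le]
    constructor <;> linarith [hmz.1, hmz.2, ht1.1, ht1.2]
  refine ⟨2 * t / 3 / ρ ^ (M0 + T), ?_⟩
  filter_upwards [eventually_ge_atTop M0] with n hn ε hV
  have hTpos : 0 < T := by omega
  set j := (n - M0) / T with hj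
  have hj1 : T * j ≤ n - M0 := Nat.mul_div_le _ _
  have hj2 : n - M0 < T * j + T := by
    have := Nat.lt_mul_div_succ (n - M0) hTpos
    rw [← hj] at this
    calc _ < T * (j + 1) := this
      _ = _ := by ring
  have h1 := key j n ε (by omega) hV
  have h2 : θ ^ j ≤ ρ ^ (T * j) := by
    rw [pow_mul]
    exact pow_le_pow_left₀ hθ0.le hρ j
  have h3 : ρ ^ (M0 + T) * ρ ^ (T * j) ≤ ρ ^ n := by
    rw [← pow_add]
    exact pow_le_pow_of_le_one hρ0.le hρ1.le (by omega)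
  have hpp : 0 < ρ ^ (M0 + T) := pow_pos hρ0 _
  calc |z ε n - t| ≤ θ ^ j * (2 * t / 3) := h1
    _ ≤ ρ ^ (T * j) * (2 * t / 3) := mul_le_mul_of_nonneg_right h2 (by linarith)
    _ = 2 * t / 3 / ρ ^ (M0 + T) * (ρ ^ (M0 + T) * ρ ^ (T * j)) := by field_simp
    _ ≤ 2 * t / 3 / ρ ^ (M0 + T) * ρ ^ n :=
      mul_le_mul_of_nonneg_left h3 (by positivity)

end Pool.Agent.KS6_20.BV
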