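import Pool.Agent.KS6_20.BV.Core

/-!
# Solutions of `x_{n+1} = ∑ i, α i / x_{n - k i}`
-/

set_option autoImplicit false

namespace Pool.Agent.KS6_20.BV

open Filter Topology

variable {ι : Type} [Fintype ι]

/-- the largest delay `m = max k` -/
def top (k : ι → ℕ) : ℕ := Finset.univ.sup k

/-- the greatest common divisor of all `k i + 1` -/
def gg (k : ι → ℕ) : ℕ := Finset.univ.gcd fun i => k i + 1

/-- the solution of `x_{n+1} = ∑ i, α i / x_{n - k i}` with initial values `v`: `sol k α v n` is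
`x_{n - m}` with `m = top k` -/
noncomputable def sol (k : ι → ℕ) (α : ι → ℝ) (v : Fin (top k + 1) → ℝ) : ℕ → ℝ
  | n => if h : n < top k + 1 then v ⟨n, h⟩ else ∑ i, α i / sol k α v (n - 1 - k i)
termination_by n => n
decreasing_by omega

/-- the positive initial vectors whose solution tends to the equilibrium `√(∑ i, α i)` -/
def basin (k : ι → ℕ) (α : ι → ℝ) : Set (Fin (top k + 1) → ℝ) :=
  {v | (∀ j, 0 < v j) ∧ Tendsto (sol k α v) atTop (𝓝 (√(∑ i, α i)))}

lemma le_top (k : ι → ℕ) (i : ι) : k i ≤ top k := Finset.le_sup (Finset.mem_univ i)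

lemma gg_dvd (k : ι → ℕ) (i : ι) : gg k ∣ k i + 1 :=
  Finset.gcd_dvd (f := fun i => k i + 1) (Finset.mem_univ i)

lemma dvd_gg (k : ι → ℕ) {m : ℕ} (h : ∀ i, m ∣ k i + 1) : m ∣ gg k :=
  Finset.dvd_gcd fun i _ => h i

lemma gg_pos [Nonempty ι] (k : ι → ℕ) : 0 < gg k :=
  Nat.pos_of_dvd_of_pos (gg_dvd k (Classical.arbitrary ι)) (Nat.succ_pos _)

lemma gg_le [Nonempty ι] (k : ι → ℕ) : gg k ≤ top k + 1 :=
  (Nat.le_of_dvd (Nat.succ_pos _) (gg_dvd k (Classical.arbitrary ι))).trans
    (Nat.succ_le_succ (le_top k _))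

/-- the reduced delays -/
def dd (k : ι → ℕ) (i : ι) : ℕ := (k i + 1) / gg k

lemma gg_mul_dd (k : ι → ℕ) (i : ι) : gg k * dd k i = k i + 1 := Nat.mul_div_cancel' (gg_dvd k i)

lemma dd_pos (k : ι → ℕ) (i : ι) : 1 ≤ dd k i := by
  rcases Nat.eq_zero_or_pos (dd k i) with h | h
  · have := gg_mul_dd k i
    rw [h] at this
    omega
  · exact h

lemma dd_gcd [Nonempty ι] (k : ι → ℕ) (m : ℕ) (h : ∀ i, m ∣ dd k i) : m ∣ 1 := by
  have h1 : gg k * m ∣ gg k := dvd_gg k fun i => by
    rw [← gg_mul_dd k i]; exact mul_dvd_mul_left _ (h i)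
  have h2 : gg k * m ∣ gg k * 1 := by rwa [mul_one]
  exact Nat.dvd_of_mul_dvd_mul_left (gg_pos k) h2

lemma val_dd [Nonempty ι] (k : ι → ℕ) (i : ι) :
    padicValNat 2 (k i + 1) = padicValNat 2 (gg k) + padicValNat 2 (dd k i) := by
  rw [← gg_mul_dd k i, padicValNat.mul (gg_pos k).ne' (by have := dd_pos k i; omega)]

lemma val_eq_zero_iff {x : ℕ} (hx : 0 < x) : padicValNat 2 x = 0 ↔ ¬ Even x := by
  rw [padicValNat.eq_zero_iff, even_iff_two_dvd]
  constructor
  · rintro (h | h | h)
    · omega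
    · omega
    · exact h
  · intro h
    exact Or.inr (Or.inr h)

/-- equal valuations: all reduced delays are odd -/
lemma odd_dd [Nonempty ι] (k : ι → ℕ)
    (h : ∀ i j, padicValNat 2 (k i + 1) = padicValNat 2 (k j + 1)) (i : ι) : ¬ Even (dd k i) := by
  intro he
  have h1 : ∀ j, Even (dd k j) := by
    intro j
    by_contra hj
    have h2 := (val_eq_zero_iff (dd_pos k j)).2 hj
    have h3 := h i j
    rw [val_dd k i, val_dd k j, h2] at h3
    exact (val_eq_zero_iff (dd_pos k i)).1 (by omega) he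
  have := dd_gcd k 2 fun j => (h1 j).two_dvd
  omega

variable {k : ι → ℕ} {α : ι → ℝ}

lemma sol_lt (v : Fin (top k + 1) → ℝ) {n : ℕ} (h : n < top k + 1) :
    sol k α v n = v ⟨n, h⟩ := by
  rw [sol, dif_pos h]

lemma sol_ge (v : Fin (top k + 1) → ℝ) {n : ℕ} (h : top k + 1 ≤ n) :
    sol k α v n = ∑ i, α i / sol k α v (n - (k i + 1)) := by
  rw [sol, dif_neg (by omega)]
  refine Finset.sum_congr rfl fun i _ => ?_
  rw [Nat.sub_sub, add_comm 1 (k i)]

lemma sol_bdd [Nonempty ι] (hα : ∀ i, 0 < α i) {v : Fin (top k + 1) → ℝ} (hv : ∀ i, 0 < v i) :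
    ∃ lo hi : ℝ, 0 < lo ∧ ∀ n, lo ≤ sol k α v n ∧ sol k α v n ≤ hi := by
  set A := ∑ i, α i with hA
  have hApos : 0 < A := Finset.sum_pos (fun i _ => hα i) Finset.univ_nonempty
  obtain ⟨i0, h0⟩ := Finite.exists_min (fun i => min (v i) (A / v i))
  set lo := min (v i0) (A / v i0) with hlo
  have hp : 0 < lo := lt_min (hv i0) (div_pos hApos (hv i0))
  refine ⟨lo, A / lo, hp, fun n => ?_⟩
  induction n using Nat.strong_induction_on with
  | _ n ih =>
    by_cases h : n < top k + 1
    · rw [sol_lt v h]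
      have h1 := h0 ⟨n, h⟩
      have h2 : lo ≤ v ⟨n, h⟩ := h1.trans (min_le_left _ _)
      have h3 : lo ≤ A / v ⟨n, h⟩ := h1.trans (min_le_right _ _)
      refine ⟨h2, ?_⟩
      rw [le_div_iff₀ (hv _)] at h3
      rw [le_div_iff₀ hp]
      linarith
    · rw [sol_ge v (by omega)]
      have hi := fun i : ι => ih (n - (k i + 1)) (by omega)
      constructor
      · have := le_sum_div hα (fun i => lt_of_lt_of_le hp (hi i).1) (fun i => (hi i).2)
        rwa [div_div_cancel₀ hApos.ne'] at this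
      · exact sum_div_le hα hp (fun i => (hi i).1)

lemma sol_pos [Nonempty ι] (hα : ∀ i, 0 < α i) {v : Fin (top k + 1) → ℝ} (hv : ∀ i, 0 < v i)
    (n : ℕ) : 0 < sol k α v n := by
  obtain ⟨lo, hi, h1, h2⟩ := sol_bdd hα hv
  exact lt_of_lt_of_le h1 (h2 n).1

/-- the whole solution -/
lemma sol_good' [Nonempty ι] (hα : ∀ i, 0 < α i) {v : Fin (top k + 1) → ℝ} (hv : ∀ i, 0 < v i) :
    Good (fun i => k i + 1) α (fun q => sol k α v q) := by
  refine ⟨fun i => by omega, hα, sol_bdd hα hv, fun n hn => ?_⟩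
  have : top k + 1 ≤ n := by
    have h1 : top k ≤ n - 1 := Finset.sup_le fun i _ => by have := hn i; omega
    have h2 := hn (Classical.arbitrary ι)
    omega
  exact sol_ge v this

/-- the subsequence along a residue class modulo `gg k` -/
lemma sol_good [Nonempty ι] (hα : ∀ i, 0 < α i) {v : Fin (top k + 1) → ℝ} (hv : ∀ i, 0 < v i)
    (r : ℕ) : Good (dd k) α (fun q => sol k α v (r + gg k * q)) := by
  obtain ⟨lo, hi, h1, h2⟩ := sol_bdd hα hv
  refine ⟨dd_pos k, hα, ⟨lo, hi, h1, fun n => h2 _⟩, fun n hn => ?_⟩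
  have e1 : ∀ i, k i + 1 ≤ gg k * n := fun i => by
    rw [← gg_mul_dd k i]; exact Nat.mul_le_mul_left _ (hn i)
  have e2 : top k + 1 ≤ r + gg k * n := by
    have h1 : top k ≤ gg k * n - 1 := Finset.sup_le fun i _ => by have := e1 i; omega
    have h2 := e1 (Classical.arbitrary ι)
    omega
  have f1 : ∀ i, r + gg k * (n - dd k i) = r + gg k * n - (k i + 1) := by
    intro i
    have := e1 i
    rw [Nat.mul_sub, gg_mul_dd k i]
    omega
  change sol k α v (r + gg k * n) = ∑ i, α i / sol k α v (r + gg k * (n - dd k i))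
  rw [sol_ge v e2]
  refine Finset.sum_congr rfl fun i _ => ?_
  rw [f1 i]

/-- different valuations: every solution tends to the equilibrium -/
lemma tendsto_of_ne [Nonempty ι] (hα : ∀ i, 0 < α i) {v : Fin (top k + 1) → ℝ}
    (hv : ∀ i, 0 < v i) {i j : ι} (h : padicValNat 2 (k i + 1) < padicValNat 2 (k j + 1)) :
    Tendsto (sol k α v) atTop (𝓝 (√(∑ i, α i))) := by
  set a := k i + 1 with ha
  set b := k j + 1 with hb
  obtain ⟨a1, b1, cop, ha1, hb1⟩ := Nat.exists_coprime a b
  set e := Nat.gcd a b with he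
  have he0 : 0 < e := Nat.gcd_pos_of_pos_left _ (by omega)
  have a1pos : 0 < a1 := by
    rcases Nat.eq_zero_or_pos a1 with h | h
    · rw [h] at ha1; omega
    · exact h
  have b1pos : 0 < b1 := by
    rcases Nat.eq_zero_or_pos b1 with h | h
    · rw [h] at hb1; omega
    · exact h
  have v1 : padicValNat 2 a = padicValNat 2 a1 + padicValNat 2 e := by
    rw [ha1, padicValNat.mul a1pos.ne' he0.ne']
  have v2 : padicValNat 2 b = padicValNat 2 b1 + padicValNat 2 e := by
    rw [hb1, padicValNat.mul b1pos.ne' he0.ne']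
  have hb2 : Even b1 := by
    by_contra hc
    have := (val_eq_zero_iff b1pos).2 hc
    omega
  have ha2 : ¬ Even a1 := by
    intro hc
    have := Nat.dvd_gcd hc.two_dvd hb2.two_dvd
    rw [cop.gcd_eq_one] at this
    omega
  refine (sol_good' hα hv).core_one (L := List.replicate b1 i) (L' := List.replicate a1 j)
    ?_ (by simpa using hb2) (by simpa using ha2)
  simp only [List.map_replicate, List.sum_replicate, smul_eq_mul]
  rw [← ha, ← hb, ha1, hb1]
  ring

/-- equal valuations: every solution is asymptotic to a solution of period `2 * gg k` -/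
lemma exists_limit [Nonempty ι] (hα : ∀ i, 0 < α i)
    (hk : ∀ i j, padicValNat 2 (k i + 1) = padicValNat 2 (k j + 1))
    {v : Fin (top k + 1) → ℝ} (hv : ∀ i, 0 < v i) :
    ∃ c : ℕ → ℝ, (∀ n, 0 < c n ∧ c (n + gg k) * c n = ∑ i, α i) ∧
      Tendsto (fun n => sol k α v n - c n) atTop (𝓝 0) := by
  set A := ∑ i, α i with hA
  have hApos : 0 < A := Finset.sum_pos (fun i _ => hα i) Finset.univ_nonempty
  have hd := gg_pos k
  choose L hL1 hL2 hL3 using fun r => (sol_good hα hv r).core_two (dd_gcd k) (odd_dd k hk)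
  have hdiv : ∀ n, (n + gg k) / gg k = n / gg k + 1 := fun n => Nat.add_div_right n hd
  refine ⟨fun n => if Even (n / gg k) then L (n % gg k) else A / L (n % gg k),
    fun n => ⟨?_, ?_⟩, ?_⟩
  · have := hL1 (n % gg k)
    change 0 < if Even (n / gg k) then L (n % gg k) else A / L (n % gg k)
    split_ifs <;> positivity
  · have := hL1 (n % gg k)
    simp only [hdiv, Nat.add_mod_right, Nat.even_add_one]
    by_cases h : Even (n / gg k)
    · simp only [h, not_true_eq_false, if_true, if_false]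
      field_simp
    · simp only [h, not_false_eq_true, if_true, if_false]
      field_simp
  · refine glue hd fun r hr => ?_
    have e1 : ∀ q, (r + gg k * q) / gg k = q := fun q => by
      rw [Nat.add_mul_div_left _ _ hd, Nat.div_eq_of_lt hr, zero_add]
    have e2 : ∀ q, (r + gg k * q) % gg k = r := fun q => by
      rw [Nat.add_mul_mod_self_left, Nat.mod_eq_of_lt hr]
    simp only [e1, e2]
    rw [Metric.tendsto_nhds]
    intro ε hε
    have h1 := (Metric.tendsto_nhds.1 (hL2 r)) ε hε
    have h2 := (Metric.tendsto_nhds.1 (hL3 r)) ε hε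
    rw [eventually_inf_principal] at h1 h2
    filter_upwards [h1, h2] with q h1 h2
    by_cases h : Even q
    · simp only [h, if_true]
      have := h1 h
      rw [Real.dist_eq] at this ⊢
      simpa using this
    · simp only [h, if_false]
      have := h2 h
      rw [Real.dist_eq] at this ⊢
      simpa using this

/-! ### Symmetries -/

lemma per_two {w : ℕ → ℝ} {d : ℕ} {t : ℝ} (ht : t ≠ 0) (hw : ∀ n, w (n + d) * w n = t) (n q : ℕ) :
    w (n + 2 * d * q) = w n := by
  induction q with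
  | zero => simp
  | succ q ih =>
    rw [← ih]
    have h1 := hw (n + 2 * d * q)
    have h2 := hw (n + 2 * d * q + d)
    have e : n + 2 * d * (q + 1) = n + 2 * d * q + d + d := by ring
    rw [e]
    have h3 : w (n + 2 * d * q + d) ≠ 0 := by
      intro h0
      rw [h0, zero_mul] at h1
      exact ht h1.symm
    have h4 : w (n + 2 * d * q + d + d) * w (n + 2 * d * q + d) =
        w (n + 2 * d * q) * w (n + 2 * d * q + d) := by
      rw [h2, ← h1]; ring
    exact mul_right_cancel₀ h3 h4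

lemma mul_shift {w : ℕ → ℝ} {d a1 : ℕ} (hw : ∀ n, w (n + d) * w n = 1) (ea : ¬ Even a1)
    {n : ℕ} (hn : d * a1 ≤ n) : w n * w (n - d * a1) = 1 := by
  rw [Nat.not_even_iff_odd] at ea
  obtain ⟨t, rfl⟩ := ea
  have h1 := hw (n - d * (2 * t + 1))
  have h2 := per_two one_ne_zero hw (n - d * (2 * t + 1) + d) t
  have e : n - d * (2 * t + 1) + d + 2 * d * t = n := by
    have : d * (2 * t + 1) = d + 2 * d * t := by ring
    rw [this] at hn ⊢
    omega
  rw [e] at h2
  rw [h2]
  exact h1

lemma sol_scale (hk : ∀ i, ¬ Even (dd k i)) {v : Fin (top k + 1) → ℝ} {w : ℕ → ℝ}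
    (hw : ∀ n, 0 < w n ∧ w (n + gg k) * w n = 1) (n : ℕ) :
    sol k α (fun i => w i * v i) n = w n * sol k α v n := by
  induction n using Nat.strong_induction_on with
  | _ n ih =>
    by_cases h : n < top k + 1
    · rw [sol_lt _ h, sol_lt _ h]
    · rw [sol_ge _ (by omega), sol_ge v (by omega), Finset.mul_sum]
      refine Finset.sum_congr rfl fun i _ => ?_
      have hi := le_top k i
      rw [ih (n - (k i + 1)) (by omega)]
      have h1 : w n * w (n - (k i + 1)) = 1 := by
        rw [← gg_mul_dd k i]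
        exact mul_shift (fun n => (hw n).2) (hk i) (by rw [gg_mul_dd k i]; omega)
      have i1 : (w (n - (k i + 1)))⁻¹ = w n := inv_eq_of_mul_eq_one_left h1
      rw [div_eq_mul_inv, mul_inv, i1]
      ring

/-- the scaling by `w` lies in the basin iff `w c` is the equilibrium -/
lemma scale_mem_iff [Nonempty ι] (hα : ∀ i, 0 < α i) (hk : ∀ i, ¬ Even (dd k i))
    {v : Fin (top k + 1) → ℝ} (hv : ∀ i, 0 < v i) {w c : ℕ → ℝ}
    (hw : ∀ n, 0 < w n ∧ w (n + gg k) * w n = 1)
    (hc : ∀ n, 0 < c n ∧ c (n + gg k) * c n = ∑ i, α i)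
    (hlim : Tendsto (fun n => sol k α v n - c n) atTop (𝓝 0)) :
    (fun i : Fin (top k + 1) => w i * v i) ∈ basin k α ↔ ∀ n, w n * c n = √(∑ i, α i) := by
  have hApos : 0 < ∑ i, α i := Finset.sum_pos (fun i _ => hα i) Finset.univ_nonempty
  have hd := gg_pos k
  have h2d : 0 < 2 * gg k := by omega
  have pw := per_two (w := w) one_ne_zero (fun n => (hw n).2)
  have pc := per_two (w := c) hApos.ne' (fun n => (hc n).2)
  have hsub : ∀ r : ℕ, Tendsto (fun q : ℕ => r + 2 * gg k * q) atTop atTop := by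
    intro r
    refine tendsto_atTop_mono (fun q => ?_) tendsto_id
    have : 1 * q ≤ 2 * gg k * q := Nat.mul_le_mul_right q h2d
    simp only [id]
    omega
  have hsol : ∀ r : ℕ, Tendsto (fun q : ℕ => sol k α v (r + 2 * gg k * q)) atTop (𝓝 (c r)) := by
    intro r
    have h1 := hlim.comp (hsub r)
    have h2 := h1.add_const (c r)
    rw [zero_add] at h2
    refine h2.congr fun q => ?_
    simp only [Function.comp_apply, pc]
    ring
  have hwsol : ∀ r : ℕ, Tendsto
      (fun q : ℕ => sol k α (fun i => w i * v i) (r + 2 * gg k * q)) atTop (𝓝 (w r * c r)) := by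
    intro r
    have := (hsol r).const_mul (w r)
    refine this.congr fun q => ?_
    rw [sol_scale hk hw, pw]
  constructor
  · rintro ⟨_, h⟩ n
    exact tendsto_nhds_unique (hwsol n) (h.comp (hsub n))
  · intro h
    refine ⟨fun i => mul_pos (hw i).1 (hv i), glue h2d fun r _ => ?_⟩
    rw [← h r]
    exact hwsol r

/-! ### Continuity of the limit -/

lemma sol_cont [Nonempty ι] (hα : ∀ i, 0 < α i) {v : Fin (top k + 1) → ℝ} (hv : ∀ i, 0 < v i)
    (n : ℕ) : ContinuousAt (fun v => sol k α v n) v := by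
  induction n using Nat.strong_induction_on with
  | _ n ih =>
    by_cases h : n < top k + 1
    · have e : (fun v => sol k α v n) = fun v => v ⟨n, h⟩ := by
        funext v; exact sol_lt v h
      rw [e]
      exact (continuous_apply _).continuousAt
    · have e : (fun v => sol k α v n) = fun v => ∑ i, α i / sol k α v (n - (k i + 1)) := by
        funext v; exact sol_ge v (by omega)
      rw [e]
      exact tendsto_finsetSum _ fun i _ =>
        tendsto_const_nhds.div (ih (n - (k i + 1)) (by omega)) (sol_pos hα hv _).ne'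

lemma c_step {c : ℕ → ℝ} {d : ℕ} {A : ℝ} (hA : 0 < A) (hc : ∀ n, 0 < c n ∧ c (n + d) * c n = A)
    (r m : ℕ) : c (r + d * m) = if Even m then c r else A / c r := by
  induction m with
  | zero => simp
  | succ m ih =>
    have h1 := (hc (r + d * m)).2
    have e : r + d * (m + 1) = r + d * m + d := by ring
    rw [e, eq_div_of_mul_eq (hc (r + d * m)).1.ne' h1, ih]
    have := (hc r).1
    by_cases h : Even m
    · simp [h, Nat.even_add_one]
    · simp only [h, Nat.even_add_one, not_false_eq_true, if_true, if_false]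
      field_simp

lemma eventually_pos {κ : Type} [Finite κ] {v : κ → ℝ} (hv : ∀ i, 0 < v i) :
    ∀ᶠ v' in 𝓝 v, ∀ i, 0 < v' i :=
  eventually_all.2 fun i => (continuous_apply i).continuousAt.eventually (lt_mem_nhds (hv i))

lemma limit_near [Nonempty ι] (hα : ∀ i, 0 < α i) (hk : ∀ i, ¬ Even (dd k i))
    {v : Fin (top k + 1) → ℝ} (hv : ∀ i, 0 < v i)
    {c : (Fin (top k + 1) → ℝ) → ℕ → ℝ}
    (hc : ∀ v, (∀ i, 0 < v i) → ∀ n, 0 < c v n ∧ c v (n + gg k) * c v n = ∑ i, α i)
    (hlim : ∀ v, (∀ i, 0 < v i) → Tendsto (fun n => sol k α v n - c v n) atTop (𝓝 0))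
    (r : ℕ) {p q : ℝ} (hp : 0 < p) (hpc : p < c v r) (hcq : c v r < q) :
    ∀ᶠ v' in 𝓝 v, p ≤ c v' r ∧ c v' r ≤ q := by
  have hApos : 0 < ∑ i, α i := Finset.sum_pos (fun i _ => hα i) Finset.univ_nonempty
  have hd := gg_pos k
  have hq : 0 < q := (hc v hv r).1.trans hcq
  have hcr := (hc v hv r).1
  have hsub : Tendsto (fun m : ℕ => r + gg k * m) atTop atTop := by
    refine tendsto_atTop_mono (fun q => ?_) tendsto_id
    have : 1 * q ≤ gg k * q := Nat.mul_le_mul_right q hd
    simp only [id]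
    omega
  have hX : ∀ v, (∀ i, 0 < v i) → Tendsto (fun m => sol k α v (r + gg k * m) -
      if Even m then c v r else (∑ i, α i) / c v r) atTop (𝓝 0) := by
    intro v hv
    refine ((hlim v hv).comp hsub).congr fun m => ?_
    simp only [Function.comp_apply]
    rw [c_step hApos (hc v hv)]
  -- the window for `v`
  have hwin : ∃ N, ∀ m, N ≤ m →
      (Even m → p < sol k α v (r + gg k * m) ∧ sol k α v (r + gg k * m) < q) ∧
      (¬ Even m → (∑ i, α i) / q < sol k α v (r + gg k * m) ∧
        sol k α v (r + gg k * m) < (∑ i, α i) / p) := by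
    have h0 := tendsto_order.1 (hX v hv)
    have f1 : (∑ i, α i) / q < (∑ i, α i) / c v r := div_lt_div_of_pos_left hApos hcr hcq
    have f2 : (∑ i, α i) / c v r < (∑ i, α i) / p := div_lt_div_of_pos_left hApos hp hpc
    have := (((h0.1 (p - c v r) (by linarith)).and (h0.2 (q - c v r) (by linarith))).and
      ((h0.1 ((∑ i, α i) / q - (∑ i, α i) / c v r) (by linarith)).and
        (h0.2 ((∑ i, α i) / p - (∑ i, α i) / c v r) (by linarith))))
    obtain ⟨N, hN⟩ := eventually_atTop.1 this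
    refine ⟨N, fun m hm => ?_⟩
    obtain ⟨⟨h1, h2⟩, h3, h4⟩ := hN m hm
    by_cases hev : Even m
    · simp only [hev, if_true] at h1 h2
      exact ⟨fun _ => ⟨by linarith, by linarith⟩, fun h => absurd hev h⟩
    · simp only [hev, if_false] at h3 h4
      exact ⟨fun h => absurd h hev, fun _ => ⟨by linarith, by linarith⟩⟩
  obtain ⟨N, hN⟩ := hwin
  set B := ∑ i, dd k i with hBdef
  have hB : ∀ i, dd k i ≤ B := fun i =>
    Finset.single_le_sum (f := dd k) (fun i _ => Nat.zero_le _) (Finset.mem_univ i)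
  have hnear : ∀ᶠ v' in 𝓝 v, ∀ m ∈ Finset.Ico N (N + B),
      (Even m → p < sol k α v' (r + gg k * m) ∧ sol k α v' (r + gg k * m) < q) ∧
      (¬ Even m → (∑ i, α i) / q < sol k α v' (r + gg k * m) ∧
        sol k α v' (r + gg k * m) < (∑ i, α i) / p) := by
    rw [Filter.eventually_all_finset]
    intro m hm
    have hc1 := sol_cont hα hv (r + gg k * m)
    obtain ⟨h1, h2⟩ := hN m (Finset.mem_Ico.1 hm).1
    by_cases hev : Even m
    · obtain ⟨h3, h4⟩ := h1 hev
      filter_upwards [hc1.eventually (lt_mem_nhds h3), hc1.eventually (gt_mem_nhds h4)]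
        with v' g1 g2
      exact ⟨fun _ => ⟨g1, g2⟩, fun h => absurd hev h⟩
    · obtain ⟨h3, h4⟩ := h2 hev
      filter_upwards [hc1.eventually (lt_mem_nhds h3), hc1.eventually (gt_mem_nhds h4)]
        with v' g1 g2
      exact ⟨fun h => absurd h hev, fun _ => ⟨g1, g2⟩⟩
  filter_upwards [hnear, eventually_pos hv] with v' hv1 hv2
  have G := sol_good hα hv2 r
  have hinv := G.invariant (fun n => sol_pos hα hv2 _) hk hB hp hq (N := N)
    (fun m h1 h2 => hv1 m (Finset.mem_Ico.2 ⟨h1, h2⟩))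
  have hsub2 : Tendsto (fun m : ℕ => 2 * m) atTop atTop :=
    tendsto_atTop_mono (fun q => by simp only [id]; omega) tendsto_id
  have hlim2 : Tendsto (fun m => sol k α v' (r + gg k * (2 * m))) atTop (𝓝 (c v' r)) := by
    have h1 := ((hX v' hv2).comp hsub2).add_const (c v' r)
    rw [zero_add] at h1
    refine h1.congr fun m => ?_
    simp only [Function.comp_apply, even_two_mul, if_true]
    ring
  constructor
  · refine ge_of_tendsto hlim2 ?_
    filter_upwards [eventually_ge_atTop N] with m hm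
    exact ((hinv (2 * m) (by omega)).1 (even_two_mul m)).1.le
  · refine le_of_tendsto hlim2 ?_
    filter_upwards [eventually_ge_atTop N] with m hm
    exact ((hinv (2 * m) (by omega)).1 (even_two_mul m)).2.le

lemma limit_cont [Nonempty ι] (hα : ∀ i, 0 < α i) (hk : ∀ i, ¬ Even (dd k i))
    {v : Fin (top k + 1) → ℝ} (hv : ∀ i, 0 < v i)
    {c : (Fin (top k + 1) → ℝ) → ℕ → ℝ}
    (hc : ∀ v, (∀ i, 0 < v i) → ∀ n, 0 < c v n ∧ c v (n + gg k) * c v n = ∑ i, α i)
    (hlim : ∀ v, (∀ i, 0 < v i) → Tendsto (fun n => sol k α v n - c v n) atTop (𝓝 0))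
    (r : ℕ) : ContinuousAt (fun v => c v r) v := by
  have hcr := (hc v hv r).1
  refine tendsto_order.2 ⟨fun a' ha' => ?_, fun b' hb' => ?_⟩
  · obtain ⟨p, hp1, hp2⟩ := exists_between (max_lt ha' (half_lt_self hcr))
    have hp : 0 < p := lt_of_lt_of_le (half_pos hcr) ((le_max_right _ _).trans hp1.le)
    filter_upwards [limit_near hα hk hv hc hlim r hp hp2 (lt_add_one _)] with v' h
    exact lt_of_lt_of_le (lt_of_le_of_lt (le_max_left _ _) hp1) h.1
  · obtain ⟨q, hq1, hq2⟩ := exists_between hb'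
    filter_upwards [limit_near hα hk hv hc hlim r (half_pos hcr) (half_lt_self hcr)
      hq1] with v' h
    exact lt_of_le_of_lt h.2 hq2

end Pool.Agent.KS6_20.BV
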