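import Pool.Agent.KS6_20.BV.Twist

/-!
# The rate of convergence of solutions
-/

set_option autoImplicit false

namespace Pool.Agent.KS6_20.BV

open Filter Topology

variable {ι : Type} [Fintype ι] {k : ι → ℕ} {α : ι → ℝ}

lemma exists_kappa [Nonempty ι] (hα : ∀ i, 0 < α i) :
    ∃ κ : ℝ, 0 < κ ∧ κ ≤ 1 ∧ ∀ i, 2 * κ ≤ α i / ∑ i, α i := by
  have hApos : 0 < ∑ i, α i := Finset.sum_pos (fun i _ => hα i) Finset.univ_nonempty
  obtain ⟨i0, h0⟩ := Finite.exists_min (fun i => α i / ∑ i, α i)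
  have h1 : 0 < α i0 / ∑ i, α i := div_pos (hα i0) hApos
  have h2 : α i0 / ∑ i, α i ≤ 1 := by
    rw [div_le_one hApos]
    exact Finset.single_le_sum (fun i _ => (hα i).le) (Finset.mem_univ i0)
  refine ⟨(α i0 / ∑ i, α i) / 2, by linarith, by linarith, fun i => ?_⟩
  have := h0 i
  linarith

lemma all_of_eventually {Z : ℕ → ℝ} {ρ C : ℝ} (h0 : 0 < ρ)
    (h : ∀ᶠ n in atTop, |Z n| ≤ C * ρ ^ n) : ∃ C', ∀ n, |Z n| ≤ C' * ρ ^ n := by
  obtain ⟨N, hN⟩ := eventually_atTop.1 h
  refine ⟨|C| + ∑ n ∈ Finset.range N, |Z n| / ρ ^ n, fun n => ?_⟩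
  have hp : 0 < ρ ^ n := pow_pos h0 n
  have hS : 0 ≤ ∑ n ∈ Finset.range N, |Z n| / ρ ^ n :=
    Finset.sum_nonneg fun m _ => div_nonneg (abs_nonneg _) (pow_pos h0 m).le
  by_cases hn : N ≤ n
  · calc |Z n| ≤ C * ρ ^ n := hN n hn
      _ ≤ (|C| + ∑ n ∈ Finset.range N, |Z n| / ρ ^ n) * ρ ^ n :=
        mul_le_mul_of_nonneg_right (by linarith [le_abs_self C]) hp.le
  · have h1 : |Z n| / ρ ^ n ≤ ∑ n ∈ Finset.range N, |Z n| / ρ ^ n :=
      Finset.single_le_sum (f := fun m => |Z m| / ρ ^ m)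
        (fun m _ => div_nonneg (abs_nonneg _) (pow_pos h0 m).le)
        (Finset.mem_range.2 (by omega))
    calc |Z n| = |Z n| / ρ ^ n * ρ ^ n := by field_simp
      _ ≤ (|C| + ∑ n ∈ Finset.range N, |Z n| / ρ ^ n) * ρ ^ n :=
        mul_le_mul_of_nonneg_right (by linarith [abs_nonneg C]) hp.le

lemma sub_atTop {g : ℕ} (hg : 0 < g) (r : ℕ) : Tendsto (fun q : ℕ => r + g * q) atTop atTop := by
  refine tendsto_atTop_mono (fun q => ?_) tendsto_id
  have : 1 * q ≤ g * q := Nat.mul_le_mul_right q hg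
  simp only [id]
  omega

/-- one rate for all solutions, equal valuations -/
lemma rate_equal [Nonempty ι] (hα : ∀ i, 0 < α i) (hk : ∀ i, ¬ Even (dd k i)) :
    ∃ ρ : ℝ, 0 < ρ ∧ ρ < 1 ∧ ∀ v : Fin (top k + 1) → ℝ, (∀ i, 0 < v i) → ∀ c : ℕ → ℝ,
      (∀ n, 0 < c n ∧ c (n + gg k) * c n = ∑ i, α i) →
      Tendsto (fun n => sol k α v n - c n) atTop (𝓝 0) →
      ∃ C, ∀ n, |sol k α v n - c n| ≤ C * ρ ^ n := by
  have hApos : 0 < ∑ i, α i := Finset.sum_pos (fun i _ => hα i) Finset.univ_nonempty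
  have hs : (0 : ℝ) < √(∑ i, α i) := Real.sqrt_pos.2 hApos
  have hss : √(∑ i, α i) * √(∑ i, α i) = ∑ i, α i := Real.mul_self_sqrt hApos.le
  obtain ⟨κ, hκ0, hκ1, hκ⟩ := exists_kappa hα
  obtain ⟨K, hK⟩ := conn_odd (dd_gcd k) hk
  set B := ∑ i, dd k i with hBdef
  have hB : ∀ i, dd k i ≤ B := fun i =>
    Finset.single_le_sum (f := dd k) (fun i _ => Nat.zero_le _) (Finset.mem_univ i)
  have hB1 : 1 ≤ B := (dd_pos k (Classical.arbitrary ι)).trans (hB _)
  have hκT : κ ^ (2 * B + K) ≤ 1 := pow_le_one₀ hκ0.le hκ1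
  have hκT0 : 0 < κ ^ (2 * B + K) := pow_pos hκ0 _
  obtain ⟨ρ1, a1, a2, a3⟩ := exists_root (θ := 1 - κ ^ (2 * B + K) / 2) (by linarith)
    (by linarith) (g := 2 * B + K) (by omega)
  obtain ⟨ρ, b1, b2, b3⟩ := exists_root a1 a2 (gg_pos k)
  refine ⟨ρ, b1, b2, fun v hv c hc hlim => ?_⟩
  have hgl : ∃ C, ∀ᶠ n in atTop, |sol k α v n - c n| ≤ C * ρ ^ n := by
    refine glue_rate (Z := fun n => sol k α v n - c n) (gg_pos k) b1 b2 a1 b3 fun r => ?_
    have G := sol_good hα hv r
    have hcr := (hc r).1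
    set X : ℕ → ℝ := fun q => sol k α v (r + gg k * q) with hXdef
    have hXpos : ∀ n, 0 < X n := fun n => sol_pos hα hv _
    have hX : Tendsto (fun m => X m - if Even m then c r else (∑ i, α i) / c r) atTop (𝓝 0) := by
      refine (hlim.comp (sub_atTop (gg_pos k) r)).congr fun m => ?_
      simp only [Function.comp_apply]
      rw [c_step hApos hc]
    have hE : Tendsto X (atTop ⊓ 𝓟 {n | Even n}) (𝓝 (c r)) := by
      have h1 := (hX.mono_left (inf_le_left (b := 𝓟 {n | Even n}))).add_const (c r)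
      rw [zero_add] at h1
      refine h1.congr' ?_
      rw [EventuallyEq, eventually_inf_principal]
      refine Eventually.of_forall fun n hn => ?_
      change Even n at hn
      simp [hn]
    have hO : Tendsto X (atTop ⊓ 𝓟 {n | ¬ Even n}) (𝓝 ((∑ i, α i) / c r)) := by
      have h1 := (hX.mono_left (inf_le_left (b := 𝓟 {n | ¬ Even n}))).add_const
        ((∑ i, α i) / c r)
      rw [zero_add] at h1
      refine h1.congr' ?_
      rw [EventuallyEq, eventually_inf_principal]
      refine Eventually.of_forall fun n hn => ?_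
      change ¬ Even n at hn
      simp [hn]
    set s := √(∑ i, α i) with hsdef
    have ht : 0 < c r / s := div_pos hcr hs
    have hE' : Tendsto (fun n => X n / s) (atTop ⊓ 𝓟 {n | Even n}) (𝓝 (c r / s)) :=
      hE.div_const s
    have hO' : Tendsto (fun n => s / X n) (atTop ⊓ 𝓟 {n | ¬ Even n}) (𝓝 (c r / s)) := by
      have h1 : Tendsto (fun n => s / X n) (atTop ⊓ 𝓟 {n | ¬ Even n})
          (𝓝 (s / ((∑ i, α i) / c r))) :=
        tendsto_const_nhds.div hO (div_pos hApos hcr).ne'
      have e : s / ((∑ i, α i) / c r) = c r / s := by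
        rw [← hss]; field_simp
      rwa [e] at h1
    obtain ⟨C, hC⟩ := rate_class G hXpos hκ0 hκ1 hκ (V := fun ε n => (ε = true ↔ Even n)) hB
      (by
        intro n ε hn hVn i
        have h1 := hB i
        have h2 := hk i
        change (!ε) = true ↔ Even (n - dd k i)
        change ε = true ↔ Even n at hVn
        rw [Nat.even_sub (by omega), ← hVn]
        cases ε <;> simp [h2])
      hK a1 a2 a3 ht
      (by
        refine Nat.frequently_even.mono fun n hn => ?_
        simpa using hn)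
      (by
        intro b hb
        have h1 := (tendsto_order.1 hE').1 (c r / s - b) (by linarith)
        have h2 := (tendsto_order.1 hE').2 (c r / s + b) (by linarith)
        have h3 := (tendsto_order.1 hO').1 (c r / s - b) (by linarith)
        have h4 := (tendsto_order.1 hO').2 (c r / s + b) (by linarith)
        rw [eventually_inf_principal] at h1 h2 h3 h4
        filter_upwards [h1, h2, h3, h4] with n h1 h2 h3 h4 ε hV
        cases ε with
        | true =>
          have hn : Even n := by simpa using hV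
          simp only [tw, if_true]
          exact ⟨h1 hn, h2 hn⟩
        | false =>
          have hn : ¬ Even n := by simpa using hV
          simp only [tw, Bool.false_eq_true, if_false]
          exact ⟨h3 hn, h4 hn⟩)
    refine ⟨C, ?_⟩
    filter_upwards [hC] with q hq
    change |X q - c (r + gg k * q)| ≤ C * ρ1 ^ q
    rw [c_step hApos hc]
    by_cases hev : Even q
    · have h1 := hq.1 (by simpa using hev)
      have e : s * (c r / s) = c r := by field_simp
      rw [e] at h1
      simpa only [hev, if_true] using h1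
    · have h1 := hq.2 (by simpa using hev)
      have e : s / (c r / s) = (∑ i, α i) / c r := by
        rw [← hss]; field_simp
      rw [e] at h1
      simpa only [hev, if_false] using h1
  obtain ⟨C, hC⟩ := hgl
  exact all_of_eventually b1 hC

/-- one rate for all solutions, different valuations -/
lemma rate_mixed [Nonempty ι] (hα : ∀ i, 0 < α i) {i j : ι}
    (hij : padicValNat 2 (k i + 1) ≠ padicValNat 2 (k j + 1)) :
    ∃ ρ : ℝ, 0 < ρ ∧ ρ < 1 ∧ ∀ v : Fin (top k + 1) → ℝ, (∀ i, 0 < v i) →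
      ∃ C, ∀ n, |sol k α v n - √(∑ i, α i)| ≤ C * ρ ^ n := by
  have hApos : 0 < ∑ i, α i := Finset.sum_pos (fun i _ => hα i) Finset.univ_nonempty
  have hs : (0 : ℝ) < √(∑ i, α i) := Real.sqrt_pos.2 hApos
  obtain ⟨κ, hκ0, hκ1, hκ⟩ := exists_kappa hα
  have hpar : ∃ i' j', Even (dd k i') ∧ ¬ Even (dd k j') := by
    by_contra hcon
    push Not at hcon
    by_cases h1 : ∃ i', Even (dd k i')
    · obtain ⟨i', hi'⟩ := h1
      have := dd_gcd k 2 fun j => (hcon i' j hi').two_dvd
      omega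
    · push Not at h1
      apply hij
      rw [val_dd k i, val_dd k j, (val_eq_zero_iff (dd_pos k i)).2 (h1 i),
        (val_eq_zero_iff (dd_pos k j)).2 (h1 j)]
  obtain ⟨i', j', hi', hj'⟩ := hpar
  obtain ⟨K, hK⟩ := conn_mixed (dd_gcd k) hi' hj'
  set B := ∑ i, dd k i with hBdef
  have hB : ∀ i, dd k i ≤ B := fun i =>
    Finset.single_le_sum (f := dd k) (fun i _ => Nat.zero_le _) (Finset.mem_univ i)
  have hB1 : 1 ≤ B := (dd_pos k (Classical.arbitrary ι)).trans (hB _)
  have hκT : κ ^ (2 * B + K) ≤ 1 := pow_le_one₀ hκ0.le hκ1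
  have hκT0 : 0 < κ ^ (2 * B + K) := pow_pos hκ0 _
  obtain ⟨ρ1, a1, a2, a3⟩ := exists_root (θ := 1 - κ ^ (2 * B + K) / 2) (by linarith)
    (by linarith) (g := 2 * B + K) (by omega)
  obtain ⟨ρ, b1, b2, b3⟩ := exists_root a1 a2 (gg_pos k)
  refine ⟨ρ, b1, b2, fun v hv => ?_⟩
  have hsol : Tendsto (sol k α v) atTop (𝓝 (√(∑ i, α i))) := by
    rcases lt_or_gt_of_ne hij with h | h
    · exact tendsto_of_ne hα hv h
    · exact tendsto_of_ne hα hv h
  have hgl : ∃ C, ∀ᶠ n in atTop, |sol k α v n - √(∑ i, α i)| ≤ C * ρ ^ n := by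
    refine glue_rate (Z := fun n => sol k α v n - √(∑ i, α i)) (gg_pos k) b1 b2 a1 b3
      fun r => ?_
    have G := sol_good hα hv r
    set X : ℕ → ℝ := fun q => sol k α v (r + gg k * q) with hXdef
    have hXpos : ∀ n, 0 < X n := fun n => sol_pos hα hv _
    have hX : Tendsto X atTop (𝓝 (√(∑ i, α i))) := hsol.comp (sub_atTop (gg_pos k) r)
    set s := √(∑ i, α i) with hsdef
    have hE' : Tendsto (fun n => X n / s) atTop (𝓝 1) := by
      have := hX.div_const s
      rwa [div_self hs.ne'] at this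
    have hO' : Tendsto (fun n => s / X n) atTop (𝓝 1) := by
      have h1 : Tendsto (fun n => s / X n) atTop (𝓝 (s / s)) :=
        tendsto_const_nhds.div hX hs.ne'
      rwa [div_self hs.ne'] at h1
    obtain ⟨C, hC⟩ := rate_class G hXpos hκ0 hκ1 hκ (V := fun _ _ => True) hB
      (fun _ _ _ _ _ => trivial) hK a1 a2 a3 one_pos
      (Frequently.of_forall fun _ => trivial)
      (by
        intro b hb
        filter_upwards [(tendsto_order.1 hE').1 (1 - b) (by linarith),
          (tendsto_order.1 hE').2 (1 + b) (by linarith),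
          (tendsto_order.1 hO').1 (1 - b) (by linarith),
          (tendsto_order.1 hO').2 (1 + b) (by linarith)] with n h1 h2 h3 h4 ε hV
        cases ε with
        | true =>
          simp only [tw, if_true]
          exact ⟨h1, h2⟩
        | false =>
          simp only [tw, Bool.false_eq_true, if_false]
          exact ⟨h3, h4⟩)
    refine ⟨C, ?_⟩
    filter_upwards [hC] with q hq
    change |X q - s| ≤ C * ρ1 ^ q
    have h1 := hq.1 trivial
    rwa [mul_one] at h1
  obtain ⟨C, hC⟩ := hgl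
  exact all_of_eventually b1 hC

end Pool.Agent.KS6_20.BV
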