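import Pool.Agent.KS6_20.BV.Rate

/-!
# Exponential convergence of solutions
-/

set_option autoImplicit false

namespace Pool.Agent.KS6_20.BV

open Filter Topology

variable {ι : Type} [Fintype ι]

lemma wsum_ge' {β y : ι → ℝ} (hβ : ∀ i, 0 < β i) (h1 : ∑ i, β i = 1) {a b : ℝ}
    (h : ∀ i, a ≤ y i) (j : ι) (hj : a + b ≤ y j) : a + β j * b ≤ ∑ i, β i * y i := by
  have e : ∑ i, β i * y i - a = ∑ i, β i * (y i - a) := by
    simp only [mul_sub, Finset.sum_sub_distrib, ← Finset.sum_mul, h1, one_mul]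
  have h2 : β j * (y j - a) ≤ ∑ i, β i * (y i - a) :=
    Finset.single_le_sum (f := fun i => β i * (y i - a))
      (fun i _ => mul_nonneg (hβ i).le (by linarith [h i])) (Finset.mem_univ j)
  nlinarith [hβ j]

lemma wsum_le' {β y : ι → ℝ} (hβ : ∀ i, 0 < β i) (h1 : ∑ i, β i = 1) {a b : ℝ}
    (h : ∀ i, y i ≤ a) (j : ι) (hj : y j ≤ a - b) : ∑ i, β i * y i ≤ a - β j * b := by
  have := wsum_ge' (y := fun i => - y i) hβ h1 (a := -a) (b := b)
    (fun i => by linarith [h i]) j (by linarith)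
  simp only [mul_neg, Finset.sum_neg_distrib] at this
  linarith

lemma wsum_ge {β y : ι → ℝ} (hβ : ∀ i, 0 < β i) (h1 : ∑ i, β i = 1) {a : ℝ}
    (h : ∀ i, a ≤ y i) : a ≤ ∑ i, β i * y i := by
  calc a = ∑ i, β i * a := by rw [← Finset.sum_mul, h1, one_mul]
    _ ≤ _ := Finset.sum_le_sum fun i _ => mul_le_mul_of_nonneg_left (h i) (hβ i).le

lemma wsum_le {β y : ι → ℝ} (hβ : ∀ i, 0 < β i) (h1 : ∑ i, β i = 1) {a : ℝ}
    (h : ∀ i, y i ≤ a) : ∑ i, β i * y i ≤ a := by
  calc _ ≤ ∑ i, β i * a := Finset.sum_le_sum fun i _ => mul_le_mul_of_nonneg_left (h i) (hβ i).le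
    _ = a := by rw [← Finset.sum_mul, h1, one_mul]

/-- `X / s` and `s / X` -/
noncomputable def tw (s : ℝ) (X : ℕ → ℝ) (ε : Bool) (n : ℕ) : ℝ := if ε then X n / s else s / X n

lemma tw_pos {s : ℝ} (hs : 0 < s) {X : ℕ → ℝ} (hX : ∀ n, 0 < X n) (ε : Bool) (n : ℕ) :
    0 < tw s X ε n := by
  have := hX n
  cases ε <;> simp only [tw, if_true, Bool.false_eq_true, if_false] <;> positivity

lemma tw_inv {s : ℝ} (X : ℕ → ℝ) (ε : Bool) (n : ℕ) : (tw s X ε n)⁻¹ = tw s X (!ε) n := by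
  cases ε <;> simp [tw]

variable {d : ι → ℕ} {α : ι → ℝ} {X : ℕ → ℝ}

lemma tw_true [Nonempty ι] (G : Good d α X) (hX : ∀ n, 0 < X n) {n : ℕ} (hn : ∀ i, d i ≤ n) :
    tw (√(∑ i, α i)) X true n =
      ∑ i, α i / (∑ i, α i) * tw (√(∑ i, α i)) X false (n - d i) := by
  have hApos : 0 < ∑ i, α i := Finset.sum_pos (fun i _ => G.pos i) Finset.univ_nonempty
  have hs : (0 : ℝ) < √(∑ i, α i) := Real.sqrt_pos.2 hApos
  have hss : √(∑ i, α i) * √(∑ i, α i) = ∑ i, α i := Real.mul_self_sqrt hApos.le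
  set s := √(∑ i, α i) with hsdef
  simp only [tw, if_true, Bool.false_eq_true, if_false]
  rw [G.recur n hn, Finset.sum_div]
  refine Finset.sum_congr rfl fun i _ => ?_
  have := hX (n - d i)
  rw [← hss]
  field_simp

lemma ms_of_good [Nonempty ι] (G : Good d α X) (hX : ∀ n, 0 < X n) {κ : ℝ} (hκ0 : 0 < κ)
    (hκ : ∀ i, 2 * κ ≤ α i / ∑ i, α i) {V : Bool → ℕ → Prop} {N : ℕ} (hN : ∀ i, d i ≤ N)
    (hV : ∀ n ε, N ≤ n → V ε n → ∀ i, V (!ε) (n - d i)) :
    MS d V (tw (√(∑ i, α i)) X) κ N := by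
  have hApos : 0 < ∑ i, α i := Finset.sum_pos (fun i _ => G.pos i) Finset.univ_nonempty
  have hs : (0 : ℝ) < √(∑ i, α i) := Real.sqrt_pos.2 hApos
  have hβ : ∀ i, 0 < α i / ∑ i, α i := fun i => div_pos (G.pos i) hApos
  have hβ1 : ∑ i, α i / ∑ i, α i = 1 := by
    rw [← Finset.sum_div, div_self hApos.ne']
  have hp := fun ε n => tw_pos hs hX ε n
  have hinv : ∀ n, (tw (√(∑ i, α i)) X false n)⁻¹ = tw (√(∑ i, α i)) X true n := fun n =>
    tw_inv X false n
  have hinv' : ∀ n, (tw (√(∑ i, α i)) X true n)⁻¹ = tw (√(∑ i, α i)) X false n := fun n =>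
    tw_inv X true n
  refine ⟨hp, hV, ?_, ?_, ?_⟩
  · intro n ε hn lo hlo h
    have ht := tw_true G hX (n := n) (fun i => (hN i).trans hn)
    cases ε with
    | true =>
      rw [ht]
      exact wsum_ge hβ hβ1 h
    | false =>
      simp only [Bool.not_false] at h
      rw [← inv_le_inv₀ (hp _ _) hlo, hinv, ht]
      refine wsum_le hβ hβ1 fun i => ?_
      rw [← hinv']
      exact (inv_le_inv₀ (hp _ _) hlo).2 (h i)
  · intro n ε hn hi hhi h
    have ht := tw_true G hX (n := n) (fun i => (hN i).trans hn)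
    cases ε with
    | true =>
      rw [ht]
      exact wsum_le hβ hβ1 h
    | false =>
      simp only [Bool.not_false] at h
      rw [← inv_le_inv₀ hhi (hp _ _), hinv, ht]
      refine wsum_ge hβ hβ1 fun i => ?_
      rw [← hinv']
      exact (inv_le_inv₀ hhi (hp _ _)).2 (h i)
  · intro n ε hn lo η hlo hη0 hη h j hj
    have ht := tw_true G hX (n := n) (fun i => (hN i).trans hn)
    cases ε with
    | true =>
      rw [ht]
      have h1 := wsum_ge' hβ hβ1 h j hj
      have h2 : κ * η ≤ α j / (∑ i, α i) * η :=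
        mul_le_mul_of_nonneg_right (by linarith [hκ j]) hη0
      exact (by linarith : lo + κ * η ≤ lo + α j / (∑ i, α i) * η).trans h1
    | false =>
      simp only [Bool.not_false] at h hj
      have hlη : 0 < lo + η := by linarith
      have hlk : 0 < lo + κ * η := by positivity
      rw [← inv_le_inv₀ (hp _ _) hlk, hinv, ht]
      have h1 := wsum_le' hβ hβ1 (y := fun i => tw (√(∑ i, α i)) X false (n - d i))
        (a := lo⁻¹) (b := lo⁻¹ - (lo + η)⁻¹) (fun i => by
          rw [← hinv']; exact (inv_le_inv₀ (hp _ _) hlo).2 (h i)) j (by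
          rw [← hinv', sub_sub_cancel]; exact (inv_le_inv₀ (hp _ _) hlη).2 hj)
      refine h1.trans ?_
      have e1 : lo⁻¹ - (lo + η)⁻¹ = η / (lo * (lo + η)) := by field_simp; ring
      have e2 : lo⁻¹ - (lo + κ * η)⁻¹ = κ * η / (lo * (lo + κ * η)) := by field_simp; ring
      have e3 : κ * η / (lo * (lo + κ * η)) ≤ 2 * κ * (η / (lo * (lo + η))) := by
        rw [← mul_div_assoc, div_le_div_iff₀ (by positivity) (by positivity)]
        have : 0 ≤ κ * η * lo * (2 * (lo + κ * η) - (lo + η)) := by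
          have : 0 ≤ 2 * (lo + κ * η) - (lo + η) := by
            have : 0 ≤ κ * η := by positivity
            linarith
          positivity
        nlinarith
      have e4 : 2 * κ * (η / (lo * (lo + η))) ≤
          α j / (∑ i, α i) * (η / (lo * (lo + η))) :=
        mul_le_mul_of_nonneg_right (hκ j) (by positivity)
      rw [e1]
      linarith

lemma not_eq_of_ne {a b : Bool} (h : ¬ a = b) : (!a) = b := by
  cases a <;> cases b <;> first | rfl | exact absurd rfl h

omit [Fintype ι] in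
lemma conn_odd (hgcd : ∀ m : ℕ, (∀ i, m ∣ d i) → m ∣ 1) (od : ∀ i, ¬ Even (d i)) :
    ∃ K, Conn d (fun ε n => (ε = true ↔ Even n)) K := by
  obtain ⟨K, hK⟩ := exists_list hgcd
  refine ⟨K, fun n ε n' ε' h1 h2 h3 => ?_⟩
  obtain ⟨L, hL⟩ := hK (n' - n) (by omega)
  have he : n + (L.map d).sum = n' := by omega
  refine ⟨L, he, ?_⟩
  have h4 := even_sum_iff od L
  rw [fl_eq]
  change (ε = true ↔ Even n) at h1
  change (ε' = true ↔ Even n') at h2
  rw [← he, Nat.even_add, h4, ← h1] at h2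
  by_cases h5 : Even L.length
  · rw [if_pos h5]
    have h6 : ε' = true ↔ ε = true := by tauto
    exact (Bool.eq_iff_iff.2 h6).symm
  · rw [if_neg h5]
    have h6 : ε' = true ↔ ¬ ε = true := by tauto
    clear h1 h2 he hL h3
    cases ε <;> cases ε' <;> simp at h6 ⊢

omit [Fintype ι] in
lemma conn_mixed (hgcd : ∀ m : ℕ, (∀ i, m ∣ d i) → m ∣ 1) {i j : ι} (hi : Even (d i))
    (hj : ¬ Even (d j)) : ∃ K, Conn d (fun _ _ => True) K := by
  obtain ⟨K, hK⟩ := exists_list hgcd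
  refine ⟨K + d i * d j, fun n ε n' ε' _ _ h3 => ?_⟩
  obtain ⟨L, hL⟩ := hK (n' - n - d i * d j) (by omega)
  have e0 : ((List.replicate (d j) i).map d).sum = d i * d j := by
    simp [mul_comm]
  have e1 : ((List.replicate (d i) j).map d).sum = d i * d j := by
    simp
  have par : ∀ M M' : List ι, fl ε (M ++ M') = if Even (M.length + M'.length) then ε else !ε := by
    intro M M'
    rw [fl_eq, List.length_append]
  have s0 : n + ((L ++ List.replicate (d j) i).map d).sum = n' := by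
    rw [List.map_append, List.sum_append, e0]; omega
  have s1 : n + ((L ++ List.replicate (d i) j).map d).sum = n' := by
    rw [List.map_append, List.sum_append, e1]; omega
  have p0 := par L (List.replicate (d j) i)
  have p1 := par L (List.replicate (d i) j)
  simp only [List.length_replicate, Nat.even_add, hj, iff_false] at p0
  simp only [List.length_replicate, Nat.even_add, hi, iff_true] at p1
  by_cases h5 : Even L.length
  · simp only [h5, if_true, not_true_eq_false, if_false] at p0 p1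
    by_cases h6 : ε = ε'
    · exact ⟨_, s1, p1.trans h6⟩
    · exact ⟨_, s0, p0.trans (not_eq_of_ne h6)⟩
  · simp only [h5, if_false, not_false_eq_true, if_true] at p0 p1
    by_cases h6 : ε = ε'
    · exact ⟨_, s0, p0.trans h6⟩
    · exact ⟨_, s1, p1.trans (not_eq_of_ne h6)⟩

/-- the rate along one residue class -/
lemma rate_class [Nonempty ι] (G : Good d α X) (hX : ∀ n, 0 < X n) {κ : ℝ} (hκ0 : 0 < κ)
    (hκ1 : κ ≤ 1) (hκ : ∀ i, 2 * κ ≤ α i / ∑ i, α i) {V : Bool → ℕ → Prop} {B K : ℕ}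
    (hB : ∀ i, d i ≤ B) (hV : ∀ n ε, B ≤ n → V ε n → ∀ i, V (!ε) (n - d i))
    (hK : Conn d V K) {ρ : ℝ} (hρ0 : 0 < ρ) (hρ1 : ρ < 1)
    (hρ : 1 - κ ^ (2 * B + K) / 2 ≤ ρ ^ (2 * B + K)) {t : ℝ} (ht : 0 < t)
    (hfr : ∃ᶠ n in atTop, V true n)
    (hz : ∀ b, 0 < b → ∀ᶠ n in atTop, ∀ ε, V ε n →
      t - b < tw (√(∑ i, α i)) X ε n ∧ tw (√(∑ i, α i)) X ε n < t + b) :
    ∃ C, ∀ᶠ n in atTop, (V true n → |X n - √(∑ i, α i) * t| ≤ C * ρ ^ n) ∧
      (V false n → |X n - √(∑ i, α i) / t| ≤ C * ρ ^ n) := by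
  have hApos : 0 < ∑ i, α i := Finset.sum_pos (fun i _ => G.pos i) Finset.univ_nonempty
  have hs : (0 : ℝ) < √(∑ i, α i) := Real.sqrt_pos.2 hApos
  have hB1 : 1 ≤ B := (G.hd (Classical.arbitrary ι)).trans (hB _)
  have H := ms_of_good G hX hκ0 hκ hB hV
  set F : Filter ℕ := atTop ⊓ 𝓟 {n | V true n} with hF
  have : F.NeBot := frequently_mem_iff_neBot.1 hfr
  have hzF : Tendsto (tw (√(∑ i, α i)) X true) F (𝓝 t) := by
    refine tendsto_order.2 ⟨fun a ha => ?_, fun a ha => ?_⟩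
    · rw [hF, eventually_inf_principal]
      filter_upwards [hz (t - a) (by linarith)] with n h1 h2
      linarith [(h1 true h2).1]
    · rw [hF, eventually_inf_principal]
      filter_upwards [hz (a - t) (by linarith)] with n h1 h2
      linarith [(h1 true h2).2]
  obtain ⟨C, hC⟩ := MS.rate hκ0 hκ1 hB hB1 G.hd hρ0 hρ1 hρ H hK ht (F := F) inf_le_left
    (by rw [hF, eventually_inf_principal]; exact Eventually.of_forall fun n h => h) hzF
    (fun b hb => hz b (by linarith))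
  set s := √(∑ i, α i) with hsdef
  refine ⟨s * |C| + s * |C| * 2 / (t * t), ?_⟩
  filter_upwards [hC, hz (t / 2) (by linarith)] with n h1 h2
  have hn := hX n
  have hρn : 0 < ρ ^ n := pow_pos hρ0 n
  have hCC : C * ρ ^ n ≤ |C| * ρ ^ n := mul_le_mul_of_nonneg_right (le_abs_self C) hρn.le
  have c1 : 0 ≤ s * |C| * 2 / (t * t) * ρ ^ n := by positivity
  have c2 : 0 ≤ s * |C| * ρ ^ n := by positivity
  constructor
  · intro hv
    have h3 := (h1 true hv).trans hCC
    simp only [tw, if_true] at h3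
    have e : X n - s * t = s * (X n / s - t) := by field_simp
    rw [e, abs_mul, abs_of_pos hs, add_mul]
    have := mul_le_mul_of_nonneg_left h3 hs.le
    linarith
  · intro hv
    have h3 := (h1 false hv).trans hCC
    have h4 := (h2 false hv).1
    set y := tw s X false n with hy
    have hy0 : 0 < y := tw_pos hs hX false n
    have ey : X n = s / y := by
      have : y = s / X n := by simp [hy, tw]
      rw [this]; field_simp
    have e : X n - s / t = s * (t - y) / (y * t) := by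
      rw [ey]; field_simp
    rw [e, abs_div, abs_mul, abs_of_pos hs, abs_of_pos (mul_pos hy0 ht), abs_sub_comm, add_mul]
    have h5 : s * |y - t| / (y * t) ≤ s * (|C| * ρ ^ n) / (t / 2 * t) := by
      have hyt : t / 2 ≤ y := by linarith
      gcongr
    have e5 : s * (|C| * ρ ^ n) / (t / 2 * t) = s * |C| * 2 / (t * t) * ρ ^ n := by
      field_simp
    linarith

lemma glue_rate {Z : ℕ → ℝ} {D : ℕ} (hD : 0 < D) {ρ ρ1 : ℝ} (h0 : 0 < ρ) (h1 : ρ < 1)
    (h10 : 0 < ρ1) (hρ : ρ1 ≤ ρ ^ D)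
    (h : ∀ r, ∃ C, ∀ᶠ q in atTop, |Z (r + D * q)| ≤ C * ρ1 ^ q) :
    ∃ C, ∀ᶠ n in atTop, |Z n| ≤ C * ρ ^ n := by
  choose C hC using h
  have h2 : ∀ᶠ q in atTop, ∀ r ∈ Finset.range D, |Z (r + D * q)| ≤ C r * ρ1 ^ q := by
    rw [Filter.eventually_all_finset]
    intro r _
    exact hC r
  obtain ⟨Q, hQ⟩ := eventually_atTop.1 h2
  refine ⟨(∑ r ∈ Finset.range D, |C r|) / ρ ^ D, ?_⟩
  filter_upwards [eventually_ge_atTop (Q * D)] with n hn
  have hr : n % D ∈ Finset.range D := Finset.mem_range.2 (Nat.mod_lt n hD)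
  have h3 := hQ (n / D) ((Nat.le_div_iff_mul_le hD).2 hn) (n % D) hr
  rw [Nat.mod_add_div] at h3
  have h4 : |C (n % D)| ≤ ∑ r ∈ Finset.range D, |C r| :=
    Finset.single_le_sum (f := fun r => |C r|) (fun r _ => abs_nonneg _) hr
  have h5 : ρ1 ^ (n / D) ≤ ρ ^ (D * (n / D)) := by
    rw [pow_mul]; exact pow_le_pow_left₀ h10.le hρ _
  have hpD : 0 < ρ ^ D := pow_pos h0 D
  have h6 : ρ ^ (D * (n / D)) * ρ ^ D ≤ ρ ^ n := by
    rw [← pow_add]
    refine pow_le_pow_of_le_one h0.le h1.le ?_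
    have := Nat.mod_add_div n D
    have := Nat.mod_lt n hD
    omega
  have h7 : ρ ^ (D * (n / D)) ≤ ρ ^ n / ρ ^ D := by rwa [le_div_iff₀ hpD]
  have hS : 0 ≤ ∑ r ∈ Finset.range D, |C r| := Finset.sum_nonneg fun r _ => abs_nonneg _
  calc |Z n| ≤ C (n % D) * ρ1 ^ (n / D) := h3
    _ ≤ |C (n % D)| * ρ1 ^ (n / D) :=
      mul_le_mul_of_nonneg_right (le_abs_self _) (pow_nonneg h10.le _)
    _ ≤ (∑ r ∈ Finset.range D, |C r|) * (ρ ^ n / ρ ^ D) :=
      mul_le_mul h4 (h5.trans h7) (pow_nonneg h10.le _) hS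
    _ = _ := by ring

end Pool.Agent.KS6_20.BV
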