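import Pool.Agent.KS6_20.BV.SolRate

/-!
# Windows and the Lipschitz property
-/

set_option autoImplicit false

namespace Pool.Agent.KS6_20.BV

open Filter Topology

variable {ι : Type} [Fintype ι]

section

variable {d : ι → ℕ} {α : ι → ℝ} {X : ℕ → ℝ}

/-- all twisted terms of a window are in `(a, b)`: this stays so -/
lemma keep_window [Nonempty ι] (G : Good d α X) (hX : ∀ n, 0 < X n) (od : ∀ i, ¬ Even (d i))
    {W : ℕ} (hW : ∀ i, d i ≤ W) {N : ℕ} {a b : ℝ} (ha : 0 ≤ a)
    (h : ∀ q, N ≤ q → q < N + W →
      a < (if Even q then X q else (∑ i, α i) / X q) ∧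
      (if Even q then X q else (∑ i, α i) / X q) < b) :
    ∃ a' b', a < a' ∧ b' < b ∧ ∀ q, N ≤ q → Even q → a' < X q ∧ X q < b' := by
  have hApos : 0 < ∑ i, α i := Finset.sum_pos (fun i _ => G.pos i) Finset.univ_nonempty
  have hW1 : 1 ≤ W := (G.hd (Classical.arbitrary ι)).trans (hW _)
  have h1 : ∀ᶠ p in 𝓝[>] a, ∀ q ∈ Finset.Ico N (N + W),
      p < (if Even q then X q else (∑ i, α i) / X q) := by
    rw [Filter.eventually_all_finset]
    intro q hq
    exact nhdsWithin_le_nhds (gt_mem_nhds (h q (Finset.mem_Ico.1 hq).1 (Finset.mem_Ico.1 hq).2).1)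
  have h2 : ∀ᶠ p in 𝓝[<] b, ∀ q ∈ Finset.Ico N (N + W),
      (if Even q then X q else (∑ i, α i) / X q) < p := by
    rw [Filter.eventually_all_finset]
    intro q hq
    exact nhdsWithin_le_nhds (lt_mem_nhds (h q (Finset.mem_Ico.1 hq).1 (Finset.mem_Ico.1 hq).2).2)
  obtain ⟨p, hp1, hp2⟩ := (h1.and self_mem_nhdsWithin).exists
  obtain ⟨q, hq1, hq2⟩ := (h2.and self_mem_nhdsWithin).exists
  change a < p at hp2
  change q < b at hq2
  have hp0 : 0 < p := lt_of_le_of_lt ha hp2
  have hN : N ∈ Finset.Ico N (N + W) := Finset.mem_Ico.2 ⟨le_rfl, by omega⟩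
  have hq0 : 0 < q := hp0.trans ((hp1 N hN).trans (hq1 N hN))
  have key := G.invariant hX od hW hp0 hq0 (N := N) (by
    intro m hm1 hm2
    have e1 := hp1 m (Finset.mem_Ico.2 ⟨hm1, hm2⟩)
    have e2 := hq1 m (Finset.mem_Ico.2 ⟨hm1, hm2⟩)
    have hXm := hX m
    by_cases hev : Even m
    · simp only [hev, if_true] at e1 e2
      exact ⟨fun _ => ⟨e1, e2⟩, fun h => absurd hev h⟩
    · simp only [hev, if_false] at e1 e2
      refine ⟨fun h => absurd h hev, fun _ => ⟨?_, ?_⟩⟩
      · rw [div_lt_iff₀ hq0]
        rw [div_lt_iff₀ hXm] at e2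
        linarith
      · rw [lt_div_iff₀ hp0]
        rw [lt_div_iff₀ hXm] at e1
        linarith)
  exact ⟨p, q, hp2, hq2, fun m hm hev => (key m hm).1 hev⟩

end

variable {k : ι → ℕ} {α : ι → ℝ}

lemma dd_le_window [Nonempty ι] (k : ι → ℕ) (i : ι) : dd k i ≤ (top k + 1) / gg k :=
  Nat.div_le_div_right (Nat.succ_le_succ (le_top k i))

/-- the basin and the windows of `(m + 1) / g` consecutive terms of a residue class modulo `g` -/
lemma balanced [Nonempty ι] (hα : ∀ i, 0 < α i) (hk : ∀ i, ¬ Even (dd k i))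
    {v : Fin (top k + 1) → ℝ} (hv : ∀ i, 0 < v i) {c : ℕ → ℝ}
    (hc : ∀ n, 0 < c n ∧ c (n + gg k) * c n = ∑ i, α i)
    (hlim : Tendsto (fun n => sol k α v n - c n) atTop (𝓝 0)) :
    v ∈ basin k α ↔ ∀ r N : ℕ,
      (∃ q, N ≤ q ∧ q < N + (top k + 1) / gg k ∧
        if Even q then sol k α v (r + gg k * q) ≤ √(∑ i, α i)
        else √(∑ i, α i) ≤ sol k α v (r + gg k * q)) ∧
      (∃ q, N ≤ q ∧ q < N + (top k + 1) / gg k ∧
        if Even q then √(∑ i, α i) ≤ sol k α v (r + gg k * q)
        else sol k α v (r + gg k * q) ≤ √(∑ i, α i)) := by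
  have hApos : 0 < ∑ i, α i := Finset.sum_pos (fun i _ => hα i) Finset.univ_nonempty
  have hs : (0 : ℝ) < √(∑ i, α i) := Real.sqrt_pos.2 hApos
  have hss : √(∑ i, α i) * √(∑ i, α i) = ∑ i, α i := Real.mul_self_sqrt hApos.le
  set s := √(∑ i, α i) with hsdef
  set W := (top k + 1) / gg k with hWdef
  have hW : ∀ i, dd k i ≤ W := dd_le_window k
  have hX : ∀ r, Tendsto (fun m => sol k α v (r + gg k * m) -
      if Even m then c r else (∑ i, α i) / c r) atTop (𝓝 0) := by
    intro r
    refine (hlim.comp (sub_atTop (gg_pos k) r)).congr fun m => ?_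
    simp only [Function.comp_apply]
    rw [c_step hApos hc]
  have h2q : Tendsto (fun m : ℕ => 2 * m) atTop atTop :=
    tendsto_atTop_mono (fun q => by simp only [id]; omega) tendsto_id
  have hEv : ∀ r, Tendsto (fun m => sol k α v (r + gg k * (2 * m))) atTop (𝓝 (c r)) := by
    intro r
    have h1 := ((hX r).comp h2q).add_const (c r)
    rw [zero_add] at h1
    refine h1.congr fun m => ?_
    simp only [Function.comp_apply, even_two_mul, if_true]
    ring
  constructor
  · rintro ⟨-, hv2⟩ r N
    have hEs : Tendsto (fun m => sol k α v (r + gg k * (2 * m))) atTop (𝓝 s) :=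
      hv2.comp ((sub_atTop (gg_pos k) r).comp h2q)
    have G := sol_good hα hv r
    have hXpos : ∀ n, 0 < sol k α v (r + gg k * n) := fun n => sol_pos hα hv _
    have hfin : ∃ b, s < b ∧ ∀ q, N ≤ q → q < N + W →
        (if Even q then sol k α v (r + gg k * q) else
          (∑ i, α i) / sol k α v (r + gg k * q)) < b := by
      have : ∀ᶠ b in atTop, ∀ q ∈ Finset.Ico N (N + W),
          (if Even q then sol k α v (r + gg k * q) else
            (∑ i, α i) / sol k α v (r + gg k * q)) < b := by
        rw [Filter.eventually_all_finset]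
        intro q _
        exact eventually_gt_atTop _
      obtain ⟨b, hb1, hb2⟩ := (this.and (eventually_gt_atTop s)).exists
      exact ⟨b, hb2, fun q h1 h2 => hb1 q (Finset.mem_Ico.2 ⟨h1, h2⟩)⟩
    have hfpos : ∀ q, 0 < (if Even q then sol k α v (r + gg k * q) else
        (∑ i, α i) / sol k α v (r + gg k * q)) := by
      intro q
      split_ifs
      · exact hXpos q
      · exact div_pos hApos (hXpos q)
    constructor
    · by_contra hcon
      push Not at hcon
      obtain ⟨b, hb1, hb2⟩ := hfin
      obtain ⟨a', b', h1, h2, h3⟩ := keep_window G hXpos hk hW (N := N) (a := s) (b := b) hs.le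
        (fun q hq1 hq2 => by
          refine ⟨?_, hb2 q hq1 hq2⟩
          have h4 := hcon q hq1 hq2
          by_cases hev : Even q
          · simp only [hev, if_true] at h4 ⊢
            simpa using h4
          · simp only [hev, if_false] at h4 ⊢
            have h5 : sol k α v (r + gg k * q) < s := by simpa using h4
            rw [lt_div_iff₀ (hXpos q), ← hss]
            exact mul_lt_mul_of_pos_left h5 hs)
      have h4 : a' ≤ s := ge_of_tendsto hEs (by
        filter_upwards [eventually_ge_atTop N] with m hm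
        exact (h3 (2 * m) (by omega) (even_two_mul m)).1.le)
      linarith
    · by_contra hcon
      push Not at hcon
      obtain ⟨a', b', h1, h2, h3⟩ := keep_window G hXpos hk hW (N := N) (a := 0) (b := s) le_rfl
        (fun q hq1 hq2 => by
          refine ⟨hfpos q, ?_⟩
          have h4 := hcon q hq1 hq2
          by_cases hev : Even q
          · simp only [hev, if_true] at h4 ⊢
            simpa using h4
          · simp only [hev, if_false] at h4 ⊢
            have h5 : s < sol k α v (r + gg k * q) := by simpa using h4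
            rw [div_lt_iff₀ (hXpos q), ← hss]
            exact mul_lt_mul_of_pos_left h5 hs)
      have h4 : s ≤ b' := le_of_tendsto hEs (by
        filter_upwards [eventually_ge_atTop N] with m hm
        exact (h3 (2 * m) (by omega) (even_two_mul m)).2.le)
      linarith
  · intro hbal
    have hcs : ∀ r, c r = s := by
      intro r
      have hcr := (hc r).1
      have h0 := tendsto_order.1 (hX r)
      rcases lt_trichotomy (c r) s with h | h | h
      · exfalso
        have h5 : s < (∑ i, α i) / c r := by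
          rw [lt_div_iff₀ hcr, ← hss]
          exact mul_lt_mul_of_pos_left h hs
        have hev := (h0.2 (s - c r) (by linarith)).and
          (h0.1 (s - (∑ i, α i) / c r) (by linarith))
        obtain ⟨N, hN⟩ := eventually_atTop.1 hev
        obtain ⟨q, hq1, hq2, hq3⟩ := (hbal r N).2
        obtain ⟨g1, g2⟩ := hN q hq1
        by_cases he : Even q
        · simp only [he, if_true] at g1 g2 hq3
          linarith
        · simp only [he, if_false] at g1 g2 hq3
          linarith
      · exact h
      · exfalso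
        have h5 : (∑ i, α i) / c r < s := by
          rw [div_lt_iff₀ hcr, ← hss]
          exact mul_lt_mul_of_pos_left h hs
        have hev := (h0.1 (s - c r) (by linarith)).and
          (h0.2 (s - (∑ i, α i) / c r) (by linarith))
        obtain ⟨N, hN⟩ := eventually_atTop.1 hev
        obtain ⟨q, hq1, hq2, hq3⟩ := (hbal r N).1
        obtain ⟨g1, g2⟩ := hN q hq1
        by_cases he : Even q
        · simp only [he, if_true] at g1 g2 hq3
          linarith
        · simp only [he, if_false] at g1 g2 hq3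
          linarith
    refine ⟨hv, ?_⟩
    have h1 := hlim.add_const s
    rw [zero_add] at h1
    refine h1.congr fun n => ?_
    rw [hcs n]
    ring

/-- nonexpansiveness of the solution map in the metric `max |log v - log v'|` -/
lemma sol_ratio [Nonempty ι] (hα : ∀ i, 0 < α i) {v v' : Fin (top k + 1) → ℝ}
    (hv : ∀ i, 0 < v i) (hv' : ∀ i, 0 < v' i) {D : ℝ}
    (h : ∀ i, v i ≤ D * v' i ∧ v' i ≤ D * v i) (n : ℕ) :
    sol k α v n ≤ D * sol k α v' n ∧ sol k α v' n ≤ D * sol k α v n := by
  induction n using Nat.strong_induction_on with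
  | _ n ih =>
    by_cases hn : n < top k + 1
    · rw [sol_lt v hn, sol_lt v' hn]
      exact h _
    · have p := fun i : ι => sol_pos hα hv (k := k) (n - (k i + 1))
      have p' := fun i : ι => sol_pos hα hv' (k := k) (n - (k i + 1))
      have hi := fun i : ι => ih (n - (k i + 1)) (by omega)
      rw [sol_ge v (by omega), sol_ge v' (by omega), Finset.mul_sum, Finset.mul_sum]
      constructor
      · refine Finset.sum_le_sum fun i _ => ?_
        rw [← mul_div_assoc, div_le_div_iff₀ (p i) (p' i)]
        have := mul_le_mul_of_nonneg_left (hi i).2 (hα i).le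
        linarith
      · refine Finset.sum_le_sum fun i _ => ?_
        rw [← mul_div_assoc, div_le_div_iff₀ (p' i) (p i)]
        have := mul_le_mul_of_nonneg_left (hi i).1 (hα i).le
        linarith

/-- the limit function is nonexpansive in the same sense -/
lemma limit_ratio [Nonempty ι] (hα : ∀ i, 0 < α i) {v v' : Fin (top k + 1) → ℝ}
    (hv : ∀ i, 0 < v i) (hv' : ∀ i, 0 < v' i) {c c' : ℕ → ℝ}
    (hc : ∀ n, 0 < c n ∧ c (n + gg k) * c n = ∑ i, α i)
    (hlim : Tendsto (fun n => sol k α v n - c n) atTop (𝓝 0))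
    (hc' : ∀ n, 0 < c' n ∧ c' (n + gg k) * c' n = ∑ i, α i)
    (hlim' : Tendsto (fun n => sol k α v' n - c' n) atTop (𝓝 0)) {D : ℝ}
    (h : ∀ i, |Real.log (v i) - Real.log (v' i)| ≤ D) (n : ℕ) :
    |Real.log (c n) - Real.log (c' n)| ≤ D := by
  have hApos : 0 < ∑ i, α i := Finset.sum_pos (fun i _ => hα i) Finset.univ_nonempty
  have hlog : ∀ {x y : ℝ}, 0 < x → 0 < y → Real.log x - Real.log y ≤ D → x ≤ Real.exp D * y := by
    intro x y hx hy hxy
    rw [← Real.log_div hx.ne' hy.ne', Real.log_le_iff_le_exp (div_pos hx hy),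
      div_le_iff₀ hy] at hxy
    exact hxy
  have h1 := sol_ratio hα hv hv' (D := Real.exp D) (fun i => by
    have := abs_le.1 (h i)
    exact ⟨hlog (hv i) (hv' i) this.2, hlog (hv' i) (hv i) (by linarith [this.1])⟩)
  have h2q : Tendsto (fun m : ℕ => 2 * m) atTop atTop :=
    tendsto_atTop_mono (fun q => by simp only [id]; omega) tendsto_id
  have hsub : Tendsto (fun m : ℕ => n + gg k * (2 * m)) atTop atTop :=
    (sub_atTop (gg_pos k) n).comp h2q
  have hEv : ∀ {v : Fin (top k + 1) → ℝ} {c : ℕ → ℝ},
      (∀ n, 0 < c n ∧ c (n + gg k) * c n = ∑ i, α i) →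
      Tendsto (fun n => sol k α v n - c n) atTop (𝓝 0) →
      Tendsto (fun m => sol k α v (n + gg k * (2 * m))) atTop (𝓝 (c n)) := by
    intro v c hc hlim
    have h1 := (hlim.comp hsub).add_const (c n)
    rw [zero_add] at h1
    refine h1.congr fun m => ?_
    simp only [Function.comp_apply]
    rw [c_step hApos hc, if_pos (even_two_mul m)]
    ring
  have e1 := hEv hc hlim
  have e2 := hEv hc' hlim'
  have hcn := (hc n).1
  have hcn' := (hc' n).1
  have f1 : c n ≤ Real.exp D * c' n := le_of_tendsto_of_tendsto' e1 (e2.const_mul _)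
    fun m => (h1 _).1
  have f2 : c' n ≤ Real.exp D * c n := le_of_tendsto_of_tendsto' e2 (e1.const_mul _)
    fun m => (h1 _).2
  have hl : ∀ {x y : ℝ}, 0 < x → 0 < y → x ≤ Real.exp D * y → Real.log x - Real.log y ≤ D := by
    intro x y hx hy hxy
    rw [← Real.log_div hx.ne' hy.ne', Real.log_le_iff_le_exp (div_pos hx hy), div_le_iff₀ hy]
    exact hxy
  rw [abs_le]
  constructor
  · linarith [hl hcn' hcn f2]
  · exact hl hcn hcn' f1

end Pool.Agent.KS6_20.BV
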